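import Mathlib

/-!
# A profile.  Size: M.

PROOF.  Let `χ ≥ 0` be smooth, not identically `0`, with `χ = 0` outside of `[1, 2]` (e.g. `Real.smoothTransition (s - 1) * Real.smoothTransition (2 - s)` or a `ContDiffBump` at `3/2`).  `0 < ∫ χ`.
For `κ > 0` the function `u ↦ iteratedDeriv 4 χ (κ u²/2)` is even, continuous with compact support, zero for `κ u²/2 ∉ [1, 2]`; so the integral is `2 ∫_{u > 0}`, and the substitution
`y = κ u²/2` on `u ∈ [√(2/κ), √(4/κ)]`, `du = (2 κ y)^{-1/2} dy`, gives `2 ∫_1^2 χ^{(4)}(y) (2 κ y)^{-1/2} dy`.  Integrate by parts four times on `[1, 2]` (`χ` and its derivatives vanish at `1` and `2`: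
they are continuous and vanish outside): `= 2 (2κ)^{-1/2} (1/2)(3/2)(5/2)(7/2) ∫_1^2 χ(y) y^{-9/2} dy > 0`.
-/

namespace Pool.Agent.Work.MP_659252_gt.QR

open scoped ContDiff Topology

private noncomputable def Bq (κ : ℝ) (ψ : ℝ → ℝ) (m : ℕ) (u : ℝ) : ℝ := ψ (κ * u ^ 2 / 2) * (u ^ m)⁻¹

private theorem ev0 {κ : ℝ} {ψ : ℝ → ℝ} (h : ∀ s, s ∉ Set.Icc (1 : ℝ) 2 → ψ s = 0) :
    ∀ᶠ u in 𝓝 (0 : ℝ), ψ (κ * u ^ 2 / 2) = 0 := by
  have hc : Continuous fun u : ℝ => κ * u ^ 2 / 2 := by fun_prop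
  have h1 : ∀ᶠ u in 𝓝 (0 : ℝ), κ * u ^ 2 / 2 < 1 :=
    hc.continuousAt.eventually_lt continuousAt_const (by norm_num)
  filter_upwards [h1] with u hu
  exact h _ fun hm => by
    have := hm.1
    linarith

private theorem Bq_ev {κ : ℝ} {ψ : ℝ → ℝ} (h : ∀ s, s ∉ Set.Icc (1 : ℝ) 2 → ψ s = 0) (m : ℕ) :
    Bq κ ψ m =ᶠ[𝓝 0] fun _ => 0 := by
  filter_upwards [ev0 (κ := κ) h] with u hu
  simp [Bq, hu]

private theorem Bq_cont {κ : ℝ} {ψ : ℝ → ℝ} (hψ : Continuous ψ)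
    (h : ∀ s, s ∉ Set.Icc (1 : ℝ) 2 → ψ s = 0) (m : ℕ) : Continuous (Bq κ ψ m) := by
  rw [continuous_iff_continuousAt]
  intro u
  by_cases hu : u = 0
  · subst hu
    exact (Bq_ev h m).continuousAt
  · unfold Bq
    exact (ContinuousAt.mul (by fun_prop) ((continuousAt_id.pow m).inv₀ (pow_ne_zero m hu)))

private theorem Bq_supp {κ : ℝ} (hκ : 0 < κ) {ψ : ℝ → ℝ}
    (h : ∀ s, s ∉ Set.Icc (1 : ℝ) 2 → ψ s = 0) (m : ℕ) : HasCompactSupport (Bq κ ψ m) := by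
  refine HasCompactSupport.intro (isCompact_Icc (a := -(4 / κ + 1)) (b := 4 / κ + 1)) ?_
  intro u hu
  have h1 : ψ (κ * u ^ 2 / 2) = 0 := by
    refine h _ fun hm => hu ?_
    have h2 : κ * u ^ 2 ≤ 4 := by
      have := hm.2
      linarith
    have h3 : u ^ 2 ≤ 4 / κ := by
      rw [le_div_iff₀ hκ]
      linarith
    have h4 : 0 < 4 / κ := by positivity
    have h5 : |u| ≤ 4 / κ + 1 := abs_le_of_sq_le_sq (by nlinarith) (by linarith)
    exact ⟨(abs_le.1 h5).1, (abs_le.1 h5).2⟩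
  simp [Bq, h1]

private theorem dz {ψ : ℝ → ℝ} (h : ∀ s, s ∉ Set.Icc (1 : ℝ) 2 → ψ s = 0) :
    ∀ s, s ∉ Set.Icc (1 : ℝ) 2 → deriv ψ s = 0 := by
  intro s hs
  have h1 : ψ =ᶠ[𝓝 s] fun _ => 0 := by
    filter_upwards [isClosed_Icc.isOpen_compl.mem_nhds hs] with t ht
    exact h t ht
  rw [h1.deriv_eq]
  simp

private theorem Bq_deriv {κ : ℝ} {ψ : ℝ → ℝ} (hψ : Differentiable ℝ ψ)
    (h : ∀ s, s ∉ Set.Icc (1 : ℝ) 2 → ψ s = 0) (m : ℕ) (u : ℝ) :
    HasDerivAt (Bq κ ψ (m + 1)) (κ * Bq κ (deriv ψ) m u - (m + 1) * Bq κ ψ (m + 2) u) u := by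
  by_cases hu : u = 0
  · subst hu
    have h1 : Bq κ (deriv ψ) m 0 = 0 := (Bq_ev (dz h) m).self_of_nhds
    have h2 : Bq κ ψ (m + 2) 0 = 0 := (Bq_ev h (m + 2)).self_of_nhds
    rw [h1, h2, mul_zero, mul_zero, sub_zero]
    exact (hasDerivAt_const (0 : ℝ) (0 : ℝ)).congr_of_eventuallyEq (Bq_ev h (m + 1))
  · have h0 : HasDerivAt (fun u : ℝ => κ * u ^ 2 / 2) (κ * u) u := by
      have h1 := ((hasDerivAt_pow 2 u).const_mul κ).div_const 2
      refine h1.congr_deriv ?_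
      norm_num
      ring
    have h1 : HasDerivAt (fun u : ℝ => ψ (κ * u ^ 2 / 2)) (deriv ψ (κ * u ^ 2 / 2) * (κ * u)) u :=
      HasDerivAt.comp u (hψ _).hasDerivAt h0
    have h2 : HasDerivAt (fun u : ℝ => (u ^ (m + 1))⁻¹)
        (-(((m + 1 : ℕ) : ℝ) * u ^ m) / (u ^ (m + 1)) ^ 2) u := by
      have h3 := (hasDerivAt_pow (m + 1) u).inv (pow_ne_zero (m + 1) hu)
      exact h3
    have h3 := h1.mul h2
    refine h3.congr_deriv ?_
    unfold Bq
    push_cast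
    field_simp
    ring

private theorem Bq_step {κ : ℝ} (hκ : 0 < κ) {ψ : ℝ → ℝ} (hψ : ContDiff ℝ ∞ ψ)
    (h : ∀ s, s ∉ Set.Icc (1 : ℝ) 2 → ψ s = 0) (m : ℕ) :
    ∫ u, Bq κ (deriv ψ) m u = (m + 1) / κ * ∫ u, Bq κ ψ (m + 2) u := by
  have hd : Differentiable ℝ ψ := hψ.differentiable (by simp)
  have hdc : Continuous (deriv ψ) := hψ.continuous_deriv (by simp)
  have i1 : MeasureTheory.Integrable (Bq κ (deriv ψ) m) :=
    (Bq_cont hdc (dz h) m).integrable_of_hasCompactSupport (Bq_supp hκ (dz h) m)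
  have i2 : MeasureTheory.Integrable (Bq κ ψ (m + 2)) :=
    (Bq_cont hd.continuous h _).integrable_of_hasCompactSupport (Bq_supp hκ h _)
  have i3 : MeasureTheory.Integrable (Bq κ ψ (m + 1)) :=
    (Bq_cont hd.continuous h _).integrable_of_hasCompactSupport (Bq_supp hκ h _)
  have h1 := MeasureTheory.integral_eq_zero_of_hasDerivAt_of_integrable
    (Bq_deriv (κ := κ) hd h m) ((i1.const_mul κ).sub (i2.const_mul _)) i3
  rw [MeasureTheory.integral_sub (i1.const_mul κ) (i2.const_mul _),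
    MeasureTheory.integral_const_mul, MeasureTheory.integral_const_mul] at h1
  field_simp
  linarith

theorem exists_chi : ∃ χ : ℝ → ℝ, ContDiff ℝ ∞ χ ∧ (∀ s, s ∉ Set.Icc (1 : ℝ) 2 → χ s = 0) ∧ (0 < ∫ s, χ s) ∧
    ∀ κ : ℝ, 0 < κ → (∫ u : ℝ, iteratedDeriv 4 χ (κ * u ^ 2 / 2)) ≠ 0 := by
  set χ : ℝ → ℝ := fun s => expNegInvGlue (s - 1) * expNegInvGlue (2 - s) with hχ
  have hs : ContDiff ℝ ∞ χ :=
    (expNegInvGlue.contDiff.comp (contDiff_id.sub contDiff_const)).mul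
      (expNegInvGlue.contDiff.comp (contDiff_const.sub contDiff_id))
  have hz : ∀ s, s ∉ Set.Icc (1 : ℝ) 2 → χ s = 0 := by
    intro s hs
    rw [Set.mem_Icc, not_and_or] at hs
    rcases hs with hs | hs
    · show expNegInvGlue (s - 1) * expNegInvGlue (2 - s) = 0
      rw [expNegInvGlue.zero_of_nonpos (by linarith : s - 1 ≤ 0), zero_mul]
    · show expNegInvGlue (s - 1) * expNegInvGlue (2 - s) = 0
      rw [expNegInvGlue.zero_of_nonpos (by linarith : 2 - s ≤ 0), mul_zero]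
  have hnn : ∀ s, 0 ≤ χ s := fun s => mul_nonneg (expNegInvGlue.nonneg _) (expNegInvGlue.nonneg _)
  have hpos : 0 < χ (3 / 2) :=
    mul_pos (expNegInvGlue.pos_of_pos (by norm_num)) (expNegInvGlue.pos_of_pos (by norm_num))
  refine ⟨χ, hs, hz, ?_, ?_⟩
  · exact hs.continuous.integral_pos_of_hasCompactSupport_nonneg_nonzero
      (HasCompactSupport.intro isCompact_Icc hz) hnn hpos.ne'
  · intro κ hκ
    have d0 : ContDiff ℝ ∞ (deriv χ) := hs.deriv'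
    have d1 : ContDiff ℝ ∞ (deriv (deriv χ)) := d0.deriv'
    have d2 : ContDiff ℝ ∞ (deriv (deriv (deriv χ))) := d1.deriv'
    have e4 : iteratedDeriv 4 χ = deriv (deriv (deriv (deriv χ))) := by
      simp [iteratedDeriv_succ]
    have e : (fun u : ℝ => iteratedDeriv 4 χ (κ * u ^ 2 / 2)) =
        Bq κ (deriv (deriv (deriv (deriv χ)))) 0 := by
      ext u
      simp [Bq, e4]
    have p : 0 < ∫ u, Bq κ χ 8 u := by
      have hx : Bq κ χ 8 (Real.sqrt (3 / κ)) ≠ 0 := by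
        unfold Bq
        have h1 : κ * Real.sqrt (3 / κ) ^ 2 / 2 = 3 / 2 := by
          rw [Real.sq_sqrt (by positivity)]
          field_simp
        rw [h1]
        have h2 : 0 < Real.sqrt (3 / κ) := Real.sqrt_pos.2 (by positivity)
        positivity
      refine (Bq_cont hs.continuous hz 8).integral_pos_of_hasCompactSupport_nonneg_nonzero
        (Bq_supp hκ hz 8) (fun u => ?_) hx
      have h8 : 0 ≤ u ^ 8 := by positivity
      exact mul_nonneg (hnn _) (inv_nonneg.2 h8)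
    rw [e, Bq_step hκ d2 (dz (dz (dz hz))) 0, Bq_step hκ d1 (dz (dz hz)) (0 + 2),
      Bq_step hκ d0 (dz hz) (0 + 2 + 2), Bq_step hκ hs hz (0 + 2 + 2 + 2)]
    have q : 0 < ∫ u, Bq κ χ (0 + 2 + 2 + 2 + 2) u := p
    positivity

end Pool.Agent.Work.MP_659252_gt.QR
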