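import Pool.Agent.Work.MP_659252_gt.QR.D.Defs

/-!
# Group J: integrals along lines with a profile, and the John operators
-/

namespace Pool.Agent.Work.MP_659252_gt.QR

open scoped ContDiff Topology
open Pool.Agent.Work.MP_659252_gt.Z (V Ten val Tan InT IsZoll IsMetric IsGeodesic)

variable {d : ℕ}

/-- `∫_{-R}^{R} b^{(n)}(f (z.1 + τ z.2)) C (z, τ) dτ`. -/
noncomputable def Ii (f : V d → ℝ) (R : ℝ) (b : ℝ → ℝ) (n : ℕ) (C : (V d × V d) × ℝ → ℝ) (z : V d × V d) : ℝ :=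
  ∫ τ in (-R)..R, iteratedDeriv n b (f (z.1 + τ • z.2)) * C (z, τ)

/-- The symbol of the John operator on integrals of the form `Ii`. -/
noncomputable def TT (f : V d → ℝ) (A B : V d) (C : (V d × V d) × ℝ → ℝ) : (V d × V d) × ℝ → ℝ := fun p =>
  fderiv ℝ f (p.1.1 + p.2 • p.1.2) A *
      (fderiv ℝ (fun y => C (y, p.2)) p.1 (0, B) - p.2 * fderiv ℝ (fun y => C (y, p.2)) p.1 (B, 0)) -
    fderiv ℝ f (p.1.1 + p.2 • p.1.2) B *
      (fderiv ℝ (fun y => C (y, p.2)) p.1 (0, A) - p.2 * fderiv ℝ (fun y => C (y, p.2)) p.1 (A, 0))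

/-- The John operator at fixed `τ`. -/
noncomputable def JC (A B : V d) (C : (V d × V d) × ℝ → ℝ) : (V d × V d) × ℝ → ℝ := fun p =>
  JJ A B (fun y => C (y, p.2)) p.1

/-- The derivative of `ψ` which appears in the symbol of the bracket. -/
noncomputable def qq (f : V d → ℝ) (ψ : V d × V d → ℝ) : (V d × V d) × ℝ → ℝ := fun p =>
  ∑ i, fderiv ℝ f (p.1.1 + p.2 • p.1.2) (ee i) * (fderiv ℝ ψ p.1 (0, ee i) - p.2 * fderiv ℝ ψ p.1 (ee i, 0))

/-- The coefficient of `Fz`. -/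
noncomputable def Cq (f w : V d → ℝ) (k : Ten d) : (V d × V d) × ℝ → ℝ := fun p =>
  (1 / 2) * Kq f w k (p.1.1 + p.2 • p.1.2) p.1.2

end Pool.Agent.Work.MP_659252_gt.QR
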