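import Pool.Agent.Work.MP_659252_gt.QR.J.Defs
import Pool.Agent.Work.MP_659252_gt.QR.D.PhiD
import Pool.Agent.Work.MP_e214ac_gt.R.PInt
import Pool.Agent.Work.MP_659252_gt.QR.A.EulA

/-!
# Three John operators kill the integral of a 2-tensor.  Size: M-L.

PROOF.  `JJ_congr`: if `φ = ψ` near `z` then also `fderiv φ = fderiv ψ` near `z` (`eventually_eventually_nhds`, `Filter.EventuallyEq.fderiv`), twice.
For `Θ : V d × V d → ℝ` smooth on the open set `Ω = {0}ᶜ ×ˢ univ` put `I Θ z = ∫_0^{2π} Θ (gc z.1 z.2 s, gd z.1 z.2 s) ds`, smooth on the open set `Dom {0}ᶜ`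
(parametric integral, see `D/PhiD`).  CLAIM: `JJ A B (I Θ) = I (JJ A B Θ)` on `Dom {0}ᶜ`.  Differentiate under the integral sign: with `c = cos s`, `n = sin s`, the direction `(A, 0)` for
`z` moves `(gc, gd)` by `(c A, -n A)` and `(0, B)` moves it by `(n B, c B)`.  The second derivative `Θ''` is a symmetric bilinear form, so
`D_{(A,0)} D_{(0,B)}` gives `Θ''((cA, -nA), (nB, cB)) = c n Θ''((A,0),(B,0)) + c² Θ''((A,0),(0,B)) - n² Θ''((0,A),(B,0)) - n c Θ''((0,A),(0,B))`; subtract the same with `A`, `B`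
exchanged: `(c² + n²) (Θ''((A,0),(0,B)) - Θ''((B,0),(0,A))) = JJ A B Θ`.
For `Θ (x, v) = bil (K x) v v`: `D_{(0,B)} Θ = 2 bil (K x) v B`, `JJ A B Θ = 2 (bil (dT K x A) v B - bil (dT K x B) v A)` is linear in `v`; `JJ A B` of it is
`2 (D_A (bil (dT K x A) B B - bil (dT K x B) B A) - D_B (bil (dT K x A) A B - bil (dT K x B) A A))`, which does not depend on `v`; and `JJ A B` of a function which does not depend on `v` is
`0`.  (Each function is smooth on `Ω`; equalities hold on the open set, so `JJ` may be applied again.)  So `JJ³ (Phi K) = I (JJ³ Θ) = 0`.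
-/

namespace Pool.Agent.Work.MP_659252_gt.QR

open scoped ContDiff Topology
open Pool.Agent.Work.MP_659252_gt.Z (V Ten val Tan InT IsZoll IsMetric IsGeodesic)

variable {d : ℕ}

theorem JJ_congr (A B : V d) (φ ψ : V d × V d → ℝ) (z : V d × V d) (h : φ =ᶠ[𝓝 z] ψ) :
    JJ A B φ =ᶠ[𝓝 z] JJ A B ψ := by
  have h1 : ∀ C : V d × V d, (fun y => fderiv ℝ φ y C) =ᶠ[𝓝 z] (fun y => fderiv ℝ ψ y C) := fun C => by
    filter_upwards [h.fderiv (𝕜 := ℝ)] with y hy
    rw [hy]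
  have h2 := (h1 (0, B)).fderiv (𝕜 := ℝ)
  have h3 := (h1 (0, A)).fderiv (𝕜 := ℝ)
  filter_upwards [h2, h3] with y e2 e3
  simp only [JJ]
  rw [e2, e3]

private theorem fd_line {E : Type*} [NormedAddCommGroup E] [NormedSpace ℝ E] (φ : E → ℝ) (y u : E)
    (c : ℝ) (hd : DifferentiableAt ℝ φ y) (h : HasDerivAt (fun t : ℝ => φ (y + t • u)) c 0) :
    fderiv ℝ φ y u = c := by
  have hl : HasDerivAt (fun r : ℝ => y + r • u) u 0 := by
    have := ((hasDerivAt_id (0 : ℝ)).smul_const u).const_add y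
    rw [one_smul] at this
    exact this
  have hd' : HasFDerivAt φ (fderiv ℝ φ y) (y + (0 : ℝ) • u) := by
    rw [zero_smul, add_zero]
    exact hd.hasFDerivAt
  exact (hd'.comp_hasDerivAt (0 : ℝ) hl).unique h

private theorem fd_slice {E : Type*} [NormedAddCommGroup E] [NormedSpace ℝ E] (F : E × ℝ → ℝ) (y : E)
    (t : ℝ) (hd : DifferentiableAt ℝ F (y, t)) (w : E) :
    fderiv ℝ F (y, t) (w, 0) = fderiv ℝ (fun y' => F (y', t)) y w := by
  have h1 : HasFDerivAt (fun y' : E => (y', t)) (ContinuousLinearMap.inl ℝ E ℝ) y :=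
    (hasFDerivAt_id y).prodMk (hasFDerivAt_const t y)
  have h2 := hd.hasFDerivAt.comp y h1
  have h3 : fderiv ℝ (fun y' => F (y', t)) y = (fderiv ℝ F (y, t)).comp (ContinuousLinearMap.inl ℝ E ℝ) :=
    h2.fderiv
  rw [h3]
  rfl

private theorem fd_app {E : Type*} [NormedAddCommGroup E] [NormedSpace ℝ E] (Θ : E → ℝ) (q v w : E)
    (hd : DifferentiableAt ℝ (fderiv ℝ Θ) q) :
    fderiv ℝ (fun y => fderiv ℝ Θ y w) q v = fderiv ℝ (fderiv ℝ Θ) q v w := by
  have h1 := hd.hasFDerivAt.clm_apply (hasFDerivAt_const w q)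
  rw [h1.fderiv]
  simp

/-- the linear map `z ↦ (gc, gd)` -/
private noncomputable def Ls (s : ℝ) : V d × V d →L[ℝ] V d × V d :=
  (Real.cos s • ContinuousLinearMap.fst ℝ (V d) (V d) + Real.sin s • ContinuousLinearMap.snd ℝ (V d) (V d)).prod
    (Real.cos s • ContinuousLinearMap.snd ℝ (V d) (V d) - Real.sin s • ContinuousLinearMap.fst ℝ (V d) (V d))

private theorem Ls_eq (s : ℝ) (z : V d × V d) : Ls s z = (gc z.1 z.2 s, gd z.1 z.2 s) := rfl

private def Om : Set (V d × V d) := {p | p.1 ≠ 0}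

private theorem Om_open : IsOpen (Om : Set (V d × V d)) := isOpen_ne.preimage continuous_fst

private def VV : Set ((V d × V d) × ℝ) := {p | gc p.1.1 p.1.2 (2 * Real.pi * p.2) ≠ 0}

private theorem gc_smooth3 :
    ContDiff ℝ ∞ fun p : (V d × V d) × ℝ => gc p.1.1 p.1.2 (2 * Real.pi * p.2) := by
  simp only [gc]
  fun_prop

private theorem gd_smooth3 :
    ContDiff ℝ ∞ fun p : (V d × V d) × ℝ => gd p.1.1 p.1.2 (2 * Real.pi * p.2) := by
  simp only [gd]
  fun_prop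

private theorem VV_open : IsOpen (VV : Set ((V d × V d) × ℝ)) :=
  isOpen_ne.preimage gc_smooth3.continuous

private noncomputable def Ig (Θ : V d × V d → ℝ) (z : V d × V d) : ℝ :=
  ∫ s in (0 : ℝ)..(2 * Real.pi), Θ (gc z.1 z.2 s, gd z.1 z.2 s)

private noncomputable def FG (Θ : V d × V d → ℝ) (p : (V d × V d) × ℝ) : ℝ :=
  (2 * Real.pi) * Θ (Ls (2 * Real.pi * p.2) p.1)

private theorem resc (X : ℝ → ℝ) :
    ∫ t in (0 : ℝ)..1, (2 * Real.pi) * X (2 * Real.pi * t) = ∫ s in (0 : ℝ)..(2 * Real.pi), X s := by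
  have h1 := intervalIntegral.integral_comp_mul_left (a := 0) (b := 1) X (c := 2 * Real.pi)
    Real.two_pi_pos.ne'
  rw [mul_zero, mul_one, smul_eq_mul] at h1
  rw [intervalIntegral.integral_const_mul, h1, ← mul_assoc, mul_inv_cancel₀ Real.two_pi_pos.ne',
    one_mul]

private theorem FG_int (Θ : V d × V d → ℝ) (z : V d × V d) :
    ∫ t in (0 : ℝ)..1, FG Θ (z, t) = Ig Θ z :=
  resc fun s => Θ (Ls s z)

private theorem FG_smooth (Θ : V d × V d → ℝ) (hΘ : ContDiffOn ℝ ∞ Θ Om) : ContDiffOn ℝ ∞ (FG Θ) VV := by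
  refine contDiffOn_const.mul ?_
  exact hΘ.comp (gc_smooth3.prodMk gd_smooth3).contDiffOn fun p hp => hp

private theorem Dom_VV {z : V d × V d} (hz : z ∈ Dom ({0}ᶜ : Set (V d))) (t : ℝ) :
    ((z, t) : (V d × V d) × ℝ) ∈ (VV : Set ((V d × V d) × ℝ)) := hz _

private theorem snd_smooth (Θ : V d × V d → ℝ) (hΘ : ContDiffOn ℝ ∞ Θ Om) (w : V d × V d) :
    ContDiffOn ℝ ∞ (fun p => fderiv ℝ (FG Θ) p (w, 0)) VV :=
  ((FG_smooth Θ hΘ).fderiv_of_isOpen VV_open (by simp)).clm_apply contDiffOn_const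

private theorem snd_deriv (Θ : V d × V d → ℝ) (hΘ : ContDiffOn ℝ ∞ Θ Om) (v w z : V d × V d)
    (hz : z ∈ Dom ({0}ᶜ : Set (V d))) :
    fderiv ℝ (fun y => fderiv ℝ (Ig Θ) y w) z v =
      ∫ t in (0 : ℝ)..1, fderiv ℝ (fun p => fderiv ℝ (FG Θ) p (w, 0)) (z, t) (v, 0) := by
  have hO : IsOpen (Dom ({0}ᶜ : Set (V d))) := Dom_open _ isOpen_compl_singleton
  have h0 := (E214.contDiffOn_param_integral (Dom ({0}ᶜ : Set (V d))) hO VV VV_open
    (fun z hz t _ => hz _) (FG Θ) (FG_smooth Θ hΘ)).2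
  have h1 : (fun x => ∫ t in (0 : ℝ)..1, FG Θ (x, t)) = Ig Θ := funext fun z => FG_int Θ z
  rw [h1] at h0
  have h2 : (fun y => fderiv ℝ (Ig Θ) y w) =ᶠ[𝓝 z]
      fun y => ∫ t in (0 : ℝ)..1, fderiv ℝ (FG Θ) (y, t) (w, 0) := by
    filter_upwards [hO.mem_nhds hz] with y hy
    exact h0 y hy w
  rw [h2.fderiv_eq]
  exact (E214.contDiffOn_param_integral (Dom ({0}ᶜ : Set (V d))) hO VV VV_open
    (fun z hz t _ => hz _) (fun p => fderiv ℝ (FG Θ) p (w, 0)) (snd_smooth Θ hΘ w)).2 z hz v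

private theorem snd_val (Θ : V d × V d → ℝ) (hΘ : ContDiffOn ℝ ∞ Θ Om) (v w z : V d × V d) (t : ℝ)
    (hz : ((z, t) : (V d × V d) × ℝ) ∈ (VV : Set ((V d × V d) × ℝ))) :
    fderiv ℝ (fun p => fderiv ℝ (FG Θ) p (w, 0)) (z, t) (v, 0) =
      (2 * Real.pi) * fderiv ℝ (fderiv ℝ Θ) (Ls (2 * Real.pi * t) z) (Ls (2 * Real.pi * t) v)
        (Ls (2 * Real.pi * t) w) := by
  set s := 2 * Real.pi * t with hs
  have hq : Ls s z ∈ (Om : Set (V d × V d)) := hz
  rw [fd_slice _ _ _ (((snd_smooth Θ hΘ w).contDiffAt (VV_open.mem_nhds hz)).differentiableAt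
    (by simp))]
  have h1 : (fun y => fderiv ℝ (FG Θ) (y, t) (w, 0)) =ᶠ[𝓝 z]
      fun y => (2 * Real.pi) * fderiv ℝ Θ (Ls s y) (Ls s w) := by
    have hO : (Ls s) ⁻¹' (Om : Set (V d × V d)) ∈ 𝓝 z :=
      (Om_open.preimage (Ls s).continuous).mem_nhds hq
    filter_upwards [hO] with y hy
    have hy' : ((y, t) : (V d × V d) × ℝ) ∈ (VV : Set ((V d × V d) × ℝ)) := hy
    rw [fd_slice _ _ _ (((FG_smooth Θ hΘ).contDiffAt (VV_open.mem_nhds hy')).differentiableAt
      (by simp))]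
    have hd : HasFDerivAt Θ (fderiv ℝ Θ (Ls s y)) (Ls s y) :=
      ((hΘ.contDiffAt (Om_open.mem_nhds hy)).differentiableAt (by simp)).hasFDerivAt
    have h2 := (hd.comp y (Ls s).hasFDerivAt).const_mul (2 * Real.pi)
    have h3 : (fun y' => FG Θ (y', t)) = fun y' => (2 * Real.pi) * (Θ ∘ Ls s) y' := rfl
    rw [h3, h2.fderiv]
    rfl
  rw [h1.fderiv_eq]
  have hsm : ContDiffAt ℝ ∞ (fderiv ℝ Θ) (Ls s z) :=
    (hΘ.contDiffAt (Om_open.mem_nhds hq)).fderiv_right (by simp)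
  have hd : HasFDerivAt (fderiv ℝ Θ) (fderiv ℝ (fderiv ℝ Θ) (Ls s z)) (Ls s z) :=
    (hsm.differentiableAt (by simp)).hasFDerivAt
  have h2 := ((hd.comp z (Ls s).hasFDerivAt).clm_apply (hasFDerivAt_const (Ls s w) z)).const_mul
    (2 * Real.pi)
  have h3 : (fun y => (2 * Real.pi) * fderiv ℝ Θ (Ls s y) (Ls s w)) =
      fun y => (2 * Real.pi) * ((fderiv ℝ Θ ∘ Ls s) y) (Ls s w) := rfl
  rw [h3, h2.fderiv]
  simp

private theorem JJ_Ig (Θ : V d × V d → ℝ) (hΘ : ContDiffOn ℝ ∞ Θ Om) (A B : V d) (z : V d × V d)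
    (hz : z ∈ Dom ({0}ᶜ : Set (V d))) : JJ A B (Ig Θ) z = Ig (JJ A B Θ) z := by
  have hint : ∀ v w : V d × V d, IntervalIntegrable
      (fun t => fderiv ℝ (fun p => fderiv ℝ (FG Θ) p (w, 0)) (z, t) (v, 0))
      MeasureTheory.volume 0 1 := by
    intro v w
    have h1 : ContinuousOn (fderiv ℝ (fun p => fderiv ℝ (FG Θ) p (w, 0))) VV :=
      (snd_smooth Θ hΘ w).continuousOn_fderiv_of_isOpen VV_open (by simp)
    have h2 : Continuous fun t : ℝ => fderiv ℝ (fun p => fderiv ℝ (FG Θ) p (w, 0)) (z, t) :=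
      h1.comp_continuous (by fun_prop) fun t => Dom_VV hz t
    exact (h2.clm_apply continuous_const).intervalIntegrable _ _
  simp only [JJ]
  rw [snd_deriv Θ hΘ (A, 0) (0, B) z hz, snd_deriv Θ hΘ (B, 0) (0, A) z hz,
    ← intervalIntegral.integral_sub (hint _ _) (hint _ _)]
  rw [← FG_int]
  refine intervalIntegral.integral_congr fun t _ => ?_
  rw [snd_val Θ hΘ _ _ z t (Dom_VV hz t), snd_val Θ hΘ _ _ z t (Dom_VV hz t)]
  simp only [FG]
  set s := 2 * Real.pi * t with hs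
  have hq : Ls s z ∈ (Om : Set (V d × V d)) := Dom_VV hz t
  have hsm : ContDiffAt ℝ ∞ (fderiv ℝ Θ) (Ls s z) :=
    (hΘ.contDiffAt (Om_open.mem_nhds hq)).fderiv_right (by simp)
  have hd := hsm.differentiableAt (by simp)
  simp only [JJ]
  rw [fd_app Θ _ _ _ hd, fd_app Θ _ _ _ hd]
  have hsy : IsSymmSndFDerivAt ℝ Θ (Ls s z) :=
    (hΘ.contDiffAt (Om_open.mem_nhds hq)).isSymmSndFDerivAt
      (by simp only [minSmoothness_of_isRCLikeNormedField]; exact WithTop.coe_le_coe.2 (le_top : (2 : ℕ∞) ≤ ⊤))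
  have eA : Ls s (A, (0 : V d)) = Real.cos s • (A, (0 : V d)) - Real.sin s • ((0 : V d), A) := by
    simp [Ls_eq, gc, gd]
  have eB : Ls s (B, (0 : V d)) = Real.cos s • (B, (0 : V d)) - Real.sin s • ((0 : V d), B) := by
    simp [Ls_eq, gc, gd]
  have eA' : Ls s ((0 : V d), A) = Real.sin s • (A, (0 : V d)) + Real.cos s • ((0 : V d), A) := by
    simp [Ls_eq, gc, gd]
  have eB' : Ls s ((0 : V d), B) = Real.sin s • (B, (0 : V d)) + Real.cos s • ((0 : V d), B) := by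
    simp [Ls_eq, gc, gd]
  rw [eA, eB, eA', eB']
  simp only [map_sub, map_add, map_smul, sub_apply, smul_apply,
    smul_eq_mul]
  have s1 := hsy.eq (A, (0 : V d)) (B, (0 : V d))
  have s2 := hsy.eq ((0 : V d), A) (B, (0 : V d))
  have s3 := hsy.eq ((0 : V d), A) ((0 : V d), B)
  have s4 := hsy.eq ((0 : V d), B) (A, (0 : V d))
  rw [s1, s2, s3, s4]
  have hcs := Real.sin_sq_add_cos_sq s
  set D := fderiv ℝ (fderiv ℝ Θ) (Ls s z) with hD
  linear_combination (2 * Real.pi) * (D (A, (0 : V d)) ((0 : V d), B) - D (B, (0 : V d)) ((0 : V d), A)) * hcs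

private theorem JJ_smooth (Θ : V d × V d → ℝ) (hΘ : ContDiffOn ℝ ∞ Θ Om) (A B : V d) :
    ContDiffOn ℝ ∞ (JJ A B Θ) Om := by
  have h1 : ∀ w : V d × V d, ContDiffOn ℝ ∞ (fun p => fderiv ℝ Θ p w) Om := fun w =>
    (hΘ.fderiv_of_isOpen Om_open (by simp)).clm_apply contDiffOn_const
  have h2 : ∀ v w : V d × V d, ContDiffOn ℝ ∞ (fun q => fderiv ℝ (fun p => fderiv ℝ Θ p w) q v) Om :=
    fun v w => ((h1 w).fderiv_of_isOpen Om_open (by simp)).clm_apply contDiffOn_const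
  exact (h2 _ _).sub (h2 _ _)

private theorem hl0 {E : Type*} [NormedAddCommGroup E] [NormedSpace ℝ E] (y u : E) :
    HasDerivAt (fun r : ℝ => y + r • u) u 0 := by
  have := ((hasDerivAt_id (0 : ℝ)).smul_const u).const_add y
  rw [one_smul] at this
  exact this

private theorem hc0 {E : Type*} [NormedAddCommGroup E] [NormedSpace ℝ E] (y : E) :
    HasDerivAt (fun r : ℝ => y + r • (0 : E)) 0 0 := hl0 y 0

private theorem Kent_smooth (K : Ten d) (hK : Fld K) (i j : Fin (d + 1)) :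
    ContDiffOn ℝ ∞ (fun y => K y i j) ({0}ᶜ : Set (V d)) :=
  contDiffOn_pi.1 (contDiffOn_pi.1 hK.smooth i) j

private theorem dT_smooth (K : Ten d) (hK : Fld K) (A : V d) :
    ContDiffOn ℝ ∞ (fun x => dT K x A) ({0}ᶜ : Set (V d)) := by
  refine contDiffOn_pi.2 fun i => contDiffOn_pi.2 fun j => ?_
  exact ((Kent_smooth K hK i j).fderiv_of_isOpen isOpen_compl_singleton (by simp)).clm_apply
    contDiffOn_const

private theorem bil_smooth {E : Type*} [NormedAddCommGroup E] [NormedSpace ℝ E] {M : E → Mat d}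
    {v w : E → V d} {S : Set E} (hM : ContDiffOn ℝ ∞ M S) (hv : ContDiffOn ℝ ∞ v S)
    (hw : ContDiffOn ℝ ∞ w S) : ContDiffOn ℝ ∞ (fun p => bil (M p) (v p) (w p)) S := by
  simp only [bil]
  refine ContDiffOn.sum fun i _ => ContDiffOn.sum fun j _ => ?_
  exact (contDiffOn_pi.1 (contDiffOn_pi.1 hM i) j).mul
    ((contDiffOn_pi.1 hv i).mul (contDiffOn_pi.1 hw j))

private theorem dAt {φ : V d × V d → ℝ} (h : ContDiffOn ℝ ∞ φ Om) {y : V d × V d} (hy : y.1 ≠ 0) :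
    DifferentiableAt ℝ φ y :=
  (h.contDiffAt (Om_open.mem_nhds hy)).differentiableAt (by simp)

private theorem JJJ_Th (K : Ten d) (hK : Fld K) (A B : V d) (z : V d × V d) (hz : z.1 ≠ 0) :
    JJ A B (JJ A B (JJ A B (fun p : V d × V d => bil (K p.1) p.2 p.2))) z = 0 := by
  have hO : ∀ z : V d × V d, z.1 ≠ 0 → ∀ᶠ y : V d × V d in 𝓝 z, y.1 ≠ 0 := fun z hz =>
    Om_open.mem_nhds hz
  have hfst : ContDiffOn ℝ ∞ (fun p : V d × V d => p.1) Om := contDiff_fst.contDiffOn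
  have hsnd : ContDiffOn ℝ ∞ (fun p : V d × V d => p.2) Om := contDiff_snd.contDiffOn
  have hKs : ContDiffOn ℝ ∞ (fun p : V d × V d => K p.1) Om :=
    hK.smooth.comp hfst fun p hp => hp
  have hTs : ∀ C : V d, ContDiffOn ℝ ∞ (fun p : V d × V d => dT K p.1 C) Om := fun C =>
    (dT_smooth K hK C).comp hfst fun p hp => hp
  have hdK : ∀ x : V d, x ≠ 0 → ∀ i j, DifferentiableAt ℝ (fun y => K y i j) x := fun x hx i j =>
    diff_of_smooth K _ isOpen_compl_singleton hK.smooth x hx i j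
  -- the first John operator
  have s1 : ∀ C : V d, ∀ y : V d × V d, y.1 ≠ 0 →
      fderiv ℝ (fun p : V d × V d => bil (K p.1) p.2 p.2) y (0, C) = 2 * bil (K y.1) y.2 C := by
    intro C y hy
    refine fd_line _ _ _ _ (dAt (bil_smooth hKs hsnd hsnd) hy) ?_
    have h1 := hasDerivAt_bil K (fun r : ℝ => y.1 + r • (0 : V d)) (fun r : ℝ => y.2 + r • C)
      (fun r : ℝ => y.2 + r • C) 0 C C 0 (fun i j => by simpa using hdK y.1 hy i j) (hc0 _)
      (hl0 _ _) (hl0 _ _)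
    refine h1.congr_deriv ?_
    have e0 : dT K (y.1 + (0 : ℝ) • (0 : V d)) 0 = fun _ _ => 0 := by
      funext i j
      simp [dT]
    rw [e0, bil_comm (hK.symm _) C]
    simp only [bil, zero_mul, Finset.sum_const_zero, zero_add, zero_smul, add_zero]
    ring
  have s2 : ∀ C D : V d, ∀ y : V d × V d, y.1 ≠ 0 →
      fderiv ℝ (fun p : V d × V d => fderiv ℝ (fun p : V d × V d => bil (K p.1) p.2 p.2) p (0, C)) y
        (D, 0) = 2 * bil (dT K y.1 D) y.2 C := by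
    intro C D y hy
    have h0 : (fun p : V d × V d => fderiv ℝ (fun p : V d × V d => bil (K p.1) p.2 p.2) p (0, C)) =ᶠ[𝓝 y]
        fun p => 2 * bil (K p.1) p.2 C := by
      filter_upwards [hO y hy] with p hp
      exact s1 C p hp
    rw [h0.fderiv_eq]
    refine fd_line _ _ _ _ (dAt (contDiffOn_const.mul (bil_smooth hKs hsnd contDiffOn_const)) hy) ?_
    have h1 := (hasDerivAt_bil K (fun r : ℝ => y.1 + r • D) (fun r : ℝ => y.2 + r • (0 : V d))
      (fun _ : ℝ => C) D 0 0 0 (fun i j => by simpa using hdK y.1 hy i j) (hl0 _ _)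
      (hc0 _) (hasDerivAt_const _ _)).const_mul 2
    refine h1.congr_deriv ?_
    simp [bil]
  have s3 : ∀ y : V d × V d, y.1 ≠ 0 → JJ A B (fun p : V d × V d => bil (K p.1) p.2 p.2) y =
      2 * bil (dT K y.1 A) y.2 B - 2 * bil (dT K y.1 B) y.2 A := by
    intro y hy
    simp only [JJ]
    rw [s2 B A y hy, s2 A B y hy]
  -- the second
  set L : V d × V d → ℝ := fun p => 2 * bil (dT K p.1 A) p.2 B - 2 * bil (dT K p.1 B) p.2 A with hL
  set g : V d → V d → ℝ := fun C x => 2 * bil (dT K x A) C B - 2 * bil (dT K x B) C A with hg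
  have hLs : ContDiffOn ℝ ∞ L Om :=
    (contDiffOn_const.mul (bil_smooth (hTs A) hsnd contDiffOn_const)).sub
      (contDiffOn_const.mul (bil_smooth (hTs B) hsnd contDiffOn_const))
  have hgs : ∀ C, ContDiffOn ℝ ∞ (g C) ({0}ᶜ : Set (V d)) := fun C =>
    (contDiffOn_const.mul (bil_smooth (dT_smooth K hK A) contDiffOn_const contDiffOn_const)).sub
      (contDiffOn_const.mul (bil_smooth (dT_smooth K hK B) contDiffOn_const contDiffOn_const))
  have t1 : ∀ C : V d, ∀ y : V d × V d, y.1 ≠ 0 → fderiv ℝ L y (0, C) = g C y.1 := by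
    intro C y hy
    refine fd_line _ _ _ _ (dAt hLs hy) ?_
    have h1 : (fun t : ℝ => L (y + t • ((0 : V d), C))) = fun t => L y + t * g C y.1 := by
      funext t
      simp only [hL, hg, Prod.fst_add, Prod.snd_add, Prod.smul_mk, smul_zero, add_zero, bil_add_left,
        bil_smul_left]
      ring
    rw [h1]
    have := ((hasDerivAt_id (0 : ℝ)).mul_const (g C y.1)).const_add (L y)
    rw [one_mul] at this
    exact this
  have t2 : ∀ C D : V d, ∀ y : V d × V d, y.1 ≠ 0 →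
      fderiv ℝ (fun p => fderiv ℝ L p (0, C)) y (D, 0) = fderiv ℝ (g C) y.1 D := by
    intro C D y hy
    have h0 : (fun p => fderiv ℝ L p (0, C)) =ᶠ[𝓝 y] fun p => g C p.1 := by
      filter_upwards [hO y hy] with p hp
      exact t1 C p hp
    rw [h0.fderiv_eq]
    have hd : HasFDerivAt (g C) (fderiv ℝ (g C) y.1) y.1 :=
      (((hgs C).contDiffAt (isOpen_compl_singleton.mem_nhds hy)).differentiableAt (by simp)).hasFDerivAt
    have h1 : HasFDerivAt (fun p : V d × V d => g C p.1)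
        ((fderiv ℝ (g C) y.1).comp (ContinuousLinearMap.fst ℝ (V d) (V d))) y :=
      hd.comp y hasFDerivAt_fst
    rw [h1.fderiv]
    rfl
  set h : V d → ℝ := fun x => fderiv ℝ (g B) x A - fderiv ℝ (g A) x B with hh
  have t3 : ∀ y : V d × V d, y.1 ≠ 0 → JJ A B L y = h y.1 := by
    intro y hy
    simp only [JJ]
    rw [t2 B A y hy, t2 A B y hy]
  -- the third
  have u1 : ∀ C : V d, ∀ y : V d × V d, fderiv ℝ (fun p : V d × V d => h p.1) y (0, C) = 0 := by
    intro C y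
    by_cases hd : DifferentiableAt ℝ (fun p : V d × V d => h p.1) y
    · refine fd_line _ _ _ _ hd ?_
      have h1 : (fun t : ℝ => (fun p : V d × V d => h p.1) (y + t • ((0 : V d), C))) = fun _ => h y.1 := by
        funext t
        simp
      rw [h1]
      exact hasDerivAt_const _ _
    · rw [fderiv_zero_of_not_differentiableAt hd]
      rfl
  have u2 : JJ A B (fun p : V d × V d => h p.1) z = 0 := by
    simp only [JJ, u1]
    simp
  have c1 : ∀ y : V d × V d, y.1 ≠ 0 →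
      JJ A B (fun p : V d × V d => bil (K p.1) p.2 p.2) =ᶠ[𝓝 y] L := by
    intro y hy
    filter_upwards [hO y hy] with p hp
    exact s3 p hp
  have c2 : JJ A B (JJ A B (fun p : V d × V d => bil (K p.1) p.2 p.2)) =ᶠ[𝓝 z]
      fun p : V d × V d => h p.1 := by
    filter_upwards [hO z hz] with p hp
    rw [(JJ_congr A B _ _ p (c1 p hp)).self_of_nhds, t3 p hp]
  rw [(JJ_congr A B _ _ z c2).self_of_nhds, u2]

theorem JJJ_Phi (K : Ten d) (hK : Fld K) (A B : V d) (z : V d × V d) (hz : z ∈ Dom ({0}ᶜ : Set (V d))) :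
    JJ A B (JJ A B (JJ A B (fun z => Phi K z.1 z.2))) z = 0 := by
  have hO : IsOpen (Dom ({0}ᶜ : Set (V d))) := Dom_open _ isOpen_compl_singleton
  set Θ : V d × V d → ℝ := fun p => bil (K p.1) p.2 p.2 with hΘd
  have hfst : ContDiffOn ℝ ∞ (fun p : V d × V d => p.1) Om := contDiff_fst.contDiffOn
  have hsnd : ContDiffOn ℝ ∞ (fun p : V d × V d => p.2) Om := contDiff_snd.contDiffOn
  have hΘ : ContDiffOn ℝ ∞ Θ Om := bil_smooth (hK.smooth.comp hfst fun p hp => hp) hsnd hsnd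
  have h0 : (fun z : V d × V d => Phi K z.1 z.2) = Ig Θ := rfl
  rw [h0]
  have h1 := JJ_smooth Θ hΘ A B
  have h2 := JJ_smooth _ h1 A B
  have e1 : ∀ y ∈ Dom ({0}ᶜ : Set (V d)), JJ A B (Ig Θ) =ᶠ[𝓝 y] Ig (JJ A B Θ) := by
    intro y hy
    filter_upwards [hO.mem_nhds hy] with p hp
    exact JJ_Ig Θ hΘ A B p hp
  have e2 : ∀ y ∈ Dom ({0}ᶜ : Set (V d)), JJ A B (JJ A B (Ig Θ)) =ᶠ[𝓝 y] Ig (JJ A B (JJ A B Θ)) := by
    intro y hy
    filter_upwards [hO.mem_nhds hy] with p hp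
    rw [(JJ_congr A B _ _ p (e1 p hp)).self_of_nhds]
    exact JJ_Ig _ h1 A B p hp
  rw [(JJ_congr A B _ _ z (e2 z hz)).self_of_nhds, JJ_Ig _ h2 A B z hz]
  simp only [Ig]
  have h3 : ∀ s : ℝ, JJ A B (JJ A B (JJ A B Θ)) (gc z.1 z.2 s, gd z.1 z.2 s) = 0 := fun s =>
    JJJ_Th K hK A B _ (hz s)
  simp only [h3, intervalIntegral.integral_zero]

end Pool.Agent.Work.MP_659252_gt.QR
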