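import Pool.Agent.Work.MP_659252_gt.QR.J.Defs
import Pool.Agent.Work.MP_659252_gt.QR.D.DirF
import Pool.Agent.Work.MP_e214ac_gt.R.PInt

/-!
# The neighbourhood of `(P, v)` on which everything is smooth.  Size: M.

PROOF.  As in `D/LinA` (1): `f (x + τ y) = f (τ⁻¹ x + y)` for `τ ≠ 0`, `f v < lo` (`feq`), `f` continuous at `v ≠ 0`: there are `R > 0` and an open `U₁ ∋ (P, v)` with `f (z.1 + τ z.2) < lo` for
`z ∈ U₁`, `|τ| ≥ R`; `z.1`, `z.2` are linearly independent for `z` near `(P, v)` (e.g. `0 < z.1 0` and ... : `P 0 > 0`, `v 0 = 0`, `v ≠ 0`: some minor `P 0 v_j - P_j v 0 ≠ 0`), so `z.1 + τ z.2 ≠ 0`.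
`Kq_smooth`: `(x, v) ↦ Kq f w k x v` is smooth on `{0}ᶜ × univ`: the second derivative is `fderiv (fun y => fderiv f y v) x v = (fderiv (fderiv f) x v) v`.
`Fz = Ii`: the integrand over `ℝ` vanishes for `|τ| ≥ R`.
`Ps b₁`: let `b₁ = 0` outside of `[a, c]`, `c < f P`; for `z` near `(P, v)` there is `r > 0` with `f (z.1 + τ z.2) > c` for `|τ| < r`; so
`Ps b₁ z = (1/2) (∫_0^R - ∫_{-R}^0) b₁ (f (z.1 + τ z.2)) Kq (..) z.2 dτ`, and both are smooth in `z` (parametric integrals over fixed intervals of functions which are smooth on `U × ℝ`).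
-/

namespace Pool.Agent.Work.MP_659252_gt.QR

open scoped ContDiff Topology
open Pool.Agent.Work.MP_659252_gt.Z (V Ten val Tan InT IsZoll IsMetric IsGeodesic)

variable {d : ℕ}

private theorem op0 : IsOpen ({0}ᶜ : Set (V d)) := isOpen_compl_singleton

theorem Kq_smooth (f w : V d → ℝ) (k : Ten d) (fs : ContDiffOn ℝ ∞ f {0}ᶜ) (ws : ContDiffOn ℝ ∞ w {0}ᶜ)
    (ks : ContDiffOn ℝ ∞ k {0}ᶜ) :
    ContDiffOn ℝ ∞ (fun p : V d × V d => Kq f w k p.1 p.2) ({0}ᶜ ×ˢ Set.univ) := by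
  have hfst : ContDiffOn ℝ ∞ (fun p : V d × V d => p.1) ({0}ᶜ ×ˢ Set.univ) := contDiff_fst.contDiffOn
  have hsnd : ContDiffOn ℝ ∞ (fun p : V d × V d => p.2) ({0}ᶜ ×ˢ Set.univ) := contDiff_snd.contDiffOn
  have hm : Set.MapsTo (fun p : V d × V d => p.1) ({0}ᶜ ×ˢ Set.univ) ({0}ᶜ : Set (V d)) :=
    fun p hp => hp.1
  have df : ContDiffOn ℝ ∞ (fderiv ℝ f) {0}ᶜ := fs.fderiv_of_isOpen op0 (by simp)
  have dw : ContDiffOn ℝ ∞ (fderiv ℝ w) {0}ᶜ := ws.fderiv_of_isOpen op0 (by simp)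
  have ddf : ContDiffOn ℝ ∞ (fderiv ℝ (fderiv ℝ f)) {0}ᶜ := df.fderiv_of_isOpen op0 (by simp)
  have h1 : ContDiffOn ℝ ∞ (fun p : V d × V d => bil (k p.1) p.2 p.2) ({0}ᶜ ×ˢ Set.univ) := by
    have h2 : ContDiffOn ℝ ∞ (fun p : V d × V d => k p.1) ({0}ᶜ ×ˢ Set.univ) := ks.comp hfst hm
    simp only [bil]
    refine ContDiffOn.sum fun i _ => ContDiffOn.sum fun j _ => ?_
    refine ContDiffOn.mul (contDiffOn_pi.1 (contDiffOn_pi.1 h2 i) j) ?_
    exact (contDiffOn_pi.1 hsnd i).mul (contDiffOn_pi.1 hsnd j)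
  have h3 : ContDiffOn ℝ ∞ (fun p : V d × V d => fderiv ℝ (fun y => fderiv ℝ f y p.2) p.1 p.2)
      ({0}ᶜ ×ˢ Set.univ) := by
    have h4 : ContDiffOn ℝ ∞ (fun p : V d × V d => fderiv ℝ (fderiv ℝ f) p.1 p.2 p.2)
        ({0}ᶜ ×ˢ Set.univ) := ((ddf.comp hfst hm).clm_apply hsnd).clm_apply hsnd
    refine h4.congr fun p hp => ?_
    have hd : DifferentiableAt ℝ (fderiv ℝ f) p.1 :=
      (df.contDiffAt (op0.mem_nhds hp.1)).differentiableAt (by simp)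
    have h5 := hd.hasFDerivAt.clm_apply (hasFDerivAt_const p.2 p.1)
    rw [h5.fderiv]
    simp
  have h4 : ContDiffOn ℝ ∞ (fun p : V d × V d => w p.1) ({0}ᶜ ×ˢ Set.univ) := ws.comp hfst hm
  have h5 : ContDiffOn ℝ ∞ (fun p : V d × V d => fderiv ℝ w p.1 p.2) ({0}ᶜ ×ˢ Set.univ) :=
    (dw.comp hfst hm).clm_apply hsnd
  have h6 : ContDiffOn ℝ ∞ (fun p : V d × V d => fderiv ℝ f p.1 p.2) ({0}ᶜ ×ˢ Set.univ) :=
    (df.comp hfst hm).clm_apply hsnd
  exact (h1.sub (h4.mul h3)).sub (h5.mul h6)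

/-- parametric integrals over `[0, R]` -/
private theorem par_int (U : Set (V d × V d)) (hU : IsOpen U) (h : (V d × V d) × ℝ → ℝ)
    (hh : ContDiffOn ℝ ∞ h (U ×ˢ Set.univ)) (R : ℝ) (hR : R ≠ 0) :
    ContDiffOn ℝ ∞ (fun z => ∫ t in (0 : ℝ)..R, h (z, t)) U := by
  have h1 : ContDiffOn ℝ ∞ (fun p : (V d × V d) × ℝ => R * h (p.1, R * p.2)) (U ×ˢ Set.univ) := by
    refine contDiffOn_const.mul (hh.comp (t := U ×ˢ Set.univ) ?_ ?_)
    · exact (contDiff_fst.prodMk (contDiff_const.mul contDiff_snd)).contDiffOn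
    · exact fun p hp => ⟨hp.1, trivial⟩
  have h2 := (E214.contDiffOn_param_integral U hU (U ×ˢ Set.univ) (hU.prod isOpen_univ)
    (fun x hx t _ => ⟨hx, trivial⟩) _ h1).1
  refine h2.congr fun z _ => ?_
  have h3 := intervalIntegral.integral_comp_mul_left (a := 0) (b := 1) (fun s => h (z, s)) hR
  rw [mul_zero, mul_one, smul_eq_mul] at h3
  show _ = ∫ t in (0 : ℝ)..1, R * h (z, R * t)
  rw [intervalIntegral.integral_const_mul, h3, ← mul_assoc, mul_inv_cancel₀ hR, one_mul]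

/-- an integral over `ℝ` of a function which vanishes outside of `[-R, R]` -/
private theorem int_cut (g : ℝ → ℝ) (R : ℝ) (hR : 0 < R) (hg : ∀ τ, R ≤ |τ| → g τ = 0) :
    ∫ τ, g τ = ∫ τ in (-R)..R, g τ := by
  rw [intervalIntegral.integral_of_le (by linarith)]
  symm
  apply MeasureTheory.setIntegral_eq_integral_of_forall_compl_eq_zero
  intro τ hτ
  apply hg
  by_contra hlt
  push Not at hlt
  rw [abs_lt] at hlt
  exact hτ ⟨hlt.1, hlt.2.le⟩

private theorem sign_int (g : ℝ → ℝ) (R : ℝ) (hR : 0 < R) (hg : ∀ τ, R ≤ |τ| → g τ = 0)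
    (hc : Continuous g) :
    ∫ τ, Real.sign τ * g τ = (∫ τ in (0 : ℝ)..R, g τ) + ∫ τ in (0 : ℝ)..(-R), g τ := by
  have h1 := int_cut (fun τ => Real.sign τ * g τ) R hR (fun τ hτ => by
    show Real.sign τ * g τ = 0
    rw [hg τ hτ, mul_zero])
  rw [h1]
  have e1 : Set.EqOn (fun τ => Real.sign τ * g τ) g (Set.Ioc 0 R) := by
    intro τ hτ
    show Real.sign τ * g τ = g τ
    rw [Real.sign_of_pos hτ.1, one_mul]
  have e2 : Set.EqOn (fun τ => Real.sign τ * g τ) (fun τ => -g τ) (Set.Ioo (-R) 0) := by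
    intro τ hτ
    show Real.sign τ * g τ = -g τ
    rw [Real.sign_of_neg hτ.2, neg_one_mul]
  have i1 : IntervalIntegrable (fun τ => Real.sign τ * g τ) MeasureTheory.volume 0 R := by
    refine IntervalIntegrable.congr_ae (hc.intervalIntegrable 0 R) ?_
    rw [Set.uIoc_of_le hR.le]
    exact (MeasureTheory.ae_restrict_iff' measurableSet_Ioc).2
      (Filter.Eventually.of_forall fun τ hτ => (e1 hτ).symm)
  have i2 : IntervalIntegrable (fun τ => Real.sign τ * g τ) MeasureTheory.volume (-R) 0 := by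
    refine IntervalIntegrable.congr_ae ((hc.neg).intervalIntegrable (-R) 0) ?_
    rw [Set.uIoc_of_le (by linarith)]
    refine (MeasureTheory.ae_restrict_iff' measurableSet_Ioc).2 ?_
    have h0 : ∀ᵐ τ : ℝ, τ ≠ 0 := by
      simp [MeasureTheory.ae_iff]
    filter_upwards [h0] with τ h0 hτ
    exact (e2 ⟨hτ.1, lt_of_le_of_ne hτ.2 h0⟩).symm
  rw [← intervalIntegral.integral_add_adjacent_intervals i2 i1]
  have j1 : ∫ τ in (0 : ℝ)..R, Real.sign τ * g τ = ∫ τ in (0 : ℝ)..R, g τ := by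
    rw [intervalIntegral.integral_of_le hR.le, intervalIntegral.integral_of_le hR.le]
    exact MeasureTheory.setIntegral_congr_fun measurableSet_Ioc e1
  have j2 : ∫ τ in (-R)..0, Real.sign τ * g τ = ∫ τ in (0 : ℝ)..(-R), g τ := by
    rw [intervalIntegral.integral_symm (-R) 0, ← intervalIntegral.integral_neg,
      intervalIntegral.integral_of_le (by linarith), intervalIntegral.integral_of_le (by linarith),
      MeasureTheory.integral_Ioc_eq_integral_Ioo, MeasureTheory.integral_Ioc_eq_integral_Ioo]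
    exact MeasureTheory.setIntegral_congr_fun measurableSet_Ioo e2
  rw [j1, j2, add_comm]

/-- the neighbourhood -/
private theorem exists_nbh (f w : V d → ℝ) (k : Ten d) (lo hi : ℝ) (P : V d) (L : Loc f w k lo hi P)
    (v : V d) (hv0 : v 0 = 0) (hv : v ≠ 0) :
    ∃ U : Set (V d × V d), IsOpen U ∧ (P, v) ∈ U ∧ ∃ R > 0, (∀ z ∈ U, ∀ τ : ℝ, z.1 + τ • z.2 ≠ 0) ∧
      ∀ z ∈ U, ∀ τ : ℝ, R ≤ |τ| → f (z.1 + τ • z.2) < lo := by
  have hg : Continuous fun p : (V d × V d) × ℝ => p.2 • p.1.1 + p.1.2 := by fun_prop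
  have hat : (0 : ℝ) • P + v = v := by simp
  have h1 : {p : (V d × V d) × ℝ | p.2 • p.1.1 + p.1.2 ≠ 0 ∧ f (p.2 • p.1.1 + p.1.2) < lo} ∈
      𝓝 (((P, v), 0) : (V d × V d) × ℝ) := by
    have h2 : {x : V d | x ≠ 0 ∧ f x < lo} ∈ 𝓝 v := by
      have hc : ContinuousAt f v := (L.fs.contDiffAt (op0.mem_nhds hv)).continuousAt
      have h3 : ∀ᶠ x in 𝓝 v, f x < lo := hc.eventually (gt_mem_nhds (L.feq v hv hv0))
      have h4 : ∀ᶠ x in 𝓝 v, x ≠ 0 := op0.mem_nhds hv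
      filter_upwards [h3, h4] with x a b
      exact ⟨b, a⟩
    have h5 : Filter.Tendsto (fun p : (V d × V d) × ℝ => p.2 • p.1.1 + p.1.2)
        (𝓝 (((P, v), 0) : (V d × V d) × ℝ)) (𝓝 ((0 : ℝ) • P + v)) := hg.continuousAt
    rw [hat] at h5
    exact h5 h2
  rw [nhds_prod_eq, Filter.mem_prod_iff] at h1
  obtain ⟨A, hA, B, hB, hAB⟩ := h1
  obtain ⟨δ, hδ, hδB⟩ := Metric.mem_nhds_iff.1 hB
  obtain ⟨A', hA'A, hA'o, hA'm⟩ := mem_nhds_iff.1 hA
  set R : ℝ := 2 / δ with hR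
  have hR0 : 0 < R := by positivity
  have hP0 := L.P0
  set A2 : Set (V d × V d) := {z | P 0 / 2 < z.1 0 ∧ |z.2 0| < P 0 / (2 * R)} with hA2
  have hA2o : IsOpen A2 := by
    have c1 : Continuous fun z : V d × V d => z.1 0 := by fun_prop
    have c2 : Continuous fun z : V d × V d => |z.2 0| := by fun_prop
    exact (isOpen_lt continuous_const c1).inter (isOpen_lt c2 continuous_const)
  have hbig : ∀ z ∈ A', ∀ τ : ℝ, R ≤ |τ| → z.1 + τ • z.2 ≠ 0 ∧ f (z.1 + τ • z.2) < lo := by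
    intro z hz τ hτ
    have hτ0 : τ ≠ 0 := by
      rintro rfl
      rw [abs_zero] at hτ
      linarith
    have hm : ((z, τ⁻¹) : (V d × V d) × ℝ) ∈ A ×ˢ B := by
      refine ⟨hA'A hz, hδB ?_⟩
      rw [Metric.mem_ball, Real.dist_eq, sub_zero, abs_inv]
      have h6 : |τ|⁻¹ ≤ R⁻¹ := inv_anti₀ hR0 hτ
      have h7 : R⁻¹ = δ / 2 := by rw [hR, inv_div]
      rw [h7] at h6
      linarith
    obtain ⟨h8, h9⟩ := hAB hm
    have e : z.1 + τ • z.2 = τ • (τ⁻¹ • z.1 + z.2) := by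
      rw [smul_add, smul_smul, mul_inv_cancel₀ hτ0, one_smul]
    rw [e]
    refine ⟨smul_ne_zero hτ0 h8, ?_⟩
    rw [L.fh τ _ hτ0]
    exact h9
  refine ⟨A' ∩ A2, hA'o.inter hA2o, ⟨hA'm, ?_, ?_⟩, R, hR0, ?_, ?_⟩
  · show P 0 / 2 < P 0
    linarith
  · show |v 0| < P 0 / (2 * R)
    rw [hv0, abs_zero]
    positivity
  · intro z hz τ
    rcases le_or_gt R |τ| with hτ | hτ
    · exact (hbig z hz.1 τ hτ).1
    · intro h0
      have h1 := congrFun h0 0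
      have h2 : z.1 0 + τ * z.2 0 = 0 := h1
      obtain ⟨h3, h4⟩ := hz.2
      have h5 : |τ * z.2 0| ≤ R * (P 0 / (2 * R)) := by
        rw [abs_mul]
        exact mul_le_mul hτ.le h4.le (abs_nonneg _) hR0.le
      have h6 : R * (P 0 / (2 * R)) = P 0 / 2 := by field_simp
      rw [h6] at h5
      have h7 := neg_le_of_abs_le h5
      linarith
  · exact fun z hz τ hτ => (hbig z hz.1 τ hτ).2

theorem nbh (f w : V d → ℝ) (k : Ten d) (lo hi : ℝ) (P : V d) (L : Loc f w k lo hi P) (b₁ : ℝ → ℝ)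
    (h₁ : Bump lo (f P) b₁) (v : V d) (hv0 : v 0 = 0) (hv : v ≠ 0) :
    ∃ U : Set (V d × V d), IsOpen U ∧ (P, v) ∈ U ∧ ∃ R > 0, (∀ z ∈ U, ∀ τ : ℝ, z.1 + τ • z.2 ≠ 0) ∧
      ContDiffOn ℝ ∞ (Ps f (Kq f w k) b₁) U ∧ ContDiffOn ℝ ∞ (Cq f w k) (U ×ˢ Set.univ) ∧
      ∀ b₂, Bump lo hi b₂ → ∀ z ∈ U, Fz f (Kq f w k) b₂ z = Ii f R b₂ 0 (Cq f w k) z := by
  obtain ⟨U, hU, hPU, R, hR, hne, hlt⟩ := exists_nbh f w k lo hi P L v hv0 hv
  have hline : ContDiff ℝ ∞ fun p : (V d × V d) × ℝ => p.1.1 + p.2 • p.1.2 := by fun_prop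
  have hKs : ContDiffOn ℝ ∞ (fun p : (V d × V d) × ℝ => Kq f w k (p.1.1 + p.2 • p.1.2) p.1.2)
      (U ×ˢ Set.univ) := by
    have h1 := Kq_smooth f w k L.fs L.ws L.ks.smooth
    refine h1.comp (t := {0}ᶜ ×ˢ Set.univ)
      (f := fun p : (V d × V d) × ℝ => ((p.1.1 + p.2 • p.1.2, p.1.2) : V d × V d)) ?_ ?_
    · exact (hline.prodMk (by fun_prop)).contDiffOn
    · exact fun p hp => ⟨hne p.1 hp.1 p.2, trivial⟩
  have hCs : ContDiffOn ℝ ∞ (Cq f w k) (U ×ˢ Set.univ) := contDiffOn_const.mul hKs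
  refine ⟨U, hU, hPU, R, hR, hne, ?_, hCs, ?_⟩
  · obtain ⟨hb, a, c, ha, hc, hz⟩ := h₁
    set h : (V d × V d) × ℝ → ℝ := fun p =>
      b₁ (f (p.1.1 + p.2 • p.1.2)) * Kq f w k (p.1.1 + p.2 • p.1.2) p.1.2 with hh
    have hs : ContDiffOn ℝ ∞ h (U ×ˢ Set.univ) := by
      refine ContDiffOn.mul ?_ hKs
      refine hb.comp_contDiffOn ?_
      exact L.fs.comp hline.contDiffOn fun p hp => hne p.1 hp.1 p.2
    have h1 := par_int U hU h hs R hR.ne'
    have h2 := par_int U hU h hs (-R) (neg_ne_zero.2 hR.ne')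
    refine ((contDiffOn_const (c := (1 / 2 : ℝ))).mul (h1.add h2)).congr fun z hzU => ?_
    have h3 := sign_int (fun τ => h (z, τ)) R hR ?_ ?_
    · show (1 / 2) * ∫ τ : ℝ, Real.sign τ * (b₁ (f (z.1 + τ • z.2)) *
        Kq f w k (z.1 + τ • z.2) z.2) = _
      exact congrArg (fun t => (1 / 2) * t) h3
    · intro τ hτ
      have h4 := hlt z hzU τ hτ
      show b₁ (f (z.1 + τ • z.2)) * _ = 0
      rw [hz _ (fun hm => by linarith [hm.1]), zero_mul]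
    · rw [continuous_iff_continuousAt]
      intro τ
      have h5 : ContinuousAt h (z, τ) :=
        (hs.contDiffAt ((hU.prod isOpen_univ).mem_nhds ⟨hzU, trivial⟩)).continuousAt
      exact h5.comp (f := fun τ : ℝ => ((z, τ) : (V d × V d) × ℝ)) (by fun_prop)
  · rintro b₂ ⟨hb, a, c, ha, hc, hz⟩ z hzU
    have h1 := int_cut (fun τ => b₂ (f (z.1 + τ • z.2)) * Kq f w k (z.1 + τ • z.2) z.2) R hR ?_
    · rw [Fz, h1, Ii, ← intervalIntegral.integral_const_mul]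
      refine intervalIntegral.integral_congr fun τ _ => ?_
      show (1 / 2) * (b₂ (f (z.1 + τ • z.2)) * Kq f w k (z.1 + τ • z.2) z.2) =
        iteratedDeriv 0 b₂ (f (z.1 + τ • z.2)) * ((1 / 2) * Kq f w k (z.1 + τ • z.2) z.2)
      rw [iteratedDeriv_zero]
      ring
    · intro τ hτ
      have h4 := hlt z hzU τ hτ
      show b₂ (f (z.1 + τ • z.2)) * _ = 0
      rw [hz _ (fun hm => by linarith [hm.1]), zero_mul]

end Pool.Agent.Work.MP_659252_gt.QR
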