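import Pool.Agent.Work.MP_659252_gt.QR.J.Defs
import Pool.Agent.Work.MP_e214ac_gt.R.PInt

/-!
# Differentiation of `Ii`.  Size: M.

Setting: `U` open, `0 < R < R'`, `z.1 + τ z.2 ≠ 0` for `z ∈ U`, `|τ| < R'`; `f` smooth away from `0`; `b` smooth; `C` smooth on `U × (-R', R')`.
PROOF.  `(z, τ) ↦ iteratedDeriv n b (f (z.1 + τ z.2)) * C (z, τ)` is smooth on the open set `U × (-R', R')` (`iteratedDeriv n b` is smooth), and `[-R, R] ⊆ (-R', R')`.  Parametric integral: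
`E214.contDiffOn_param_integral` (`Pool.Agent.Work.MP_e214ac_gt.R.PInt`, may be imported) after `τ = -R + 2 R u`, or the same proof.  The derivative of the integrand in `z` is given by the chain and
product rules: `iteratedDeriv_succ`, the derivative of `z ↦ f (z.1 + τ z.2)` in the direction `h` is `fderiv f (..) (h.1 + τ h.2)`.
`TT_smooth`, `JC_smooth`, `qq_smooth`, `brC_smooth`: `fderiv ℝ (fun y => C (y, τ)) z h = fderiv ℝ C (z, τ) (h, 0)` on `U × (-R', R')`, and `fderiv` of a smooth function on an open set is smooth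
(`ContDiffOn.fderiv_of_isOpen`); similarly for the second derivative in `JC`.
-/

namespace Pool.Agent.Work.MP_659252_gt.QR

open scoped ContDiff Topology
open Pool.Agent.Work.MP_659252_gt.Z (V Ten val Tan InT IsZoll IsMetric IsGeodesic)

variable {d : ℕ}

private theorem smooth_iter {b : ℝ → ℝ} (hb : ContDiff ℝ ∞ b) (n : ℕ) : ContDiff ℝ ∞ (iteratedDeriv n b) := by
  rw [iteratedDeriv_eq_iterate]
  exact hb.iterate_deriv n

private theorem deriv_iter {b : ℝ → ℝ} (hb : ContDiff ℝ ∞ b) (n : ℕ) (s : ℝ) :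
    HasDerivAt (iteratedDeriv n b) (iteratedDeriv (n + 1) b s) s := by
  rw [iteratedDeriv_succ]
  exact ((smooth_iter hb n).differentiable (by simp) s).hasDerivAt

private theorem open_UI {U : Set (V d × V d)} (hU : IsOpen U) (R' : ℝ) :
    IsOpen (U ×ˢ Set.Ioo (-R') R') := hU.prod isOpen_Ioo

/-- the partial derivative in the first variable -/
private theorem part_fderiv {U : Set (V d × V d)} (hU : IsOpen U) {R' : ℝ} {C : (V d × V d) × ℝ → ℝ}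
    (hC : ContDiffOn ℝ ∞ C (U ×ˢ Set.Ioo (-R') R')) {p : (V d × V d) × ℝ}
    (hp : p ∈ U ×ˢ Set.Ioo (-R') R') :
    HasFDerivAt (fun y => C (y, p.2)) ((fderiv ℝ C p).comp (ContinuousLinearMap.inl ℝ (V d × V d) ℝ)) p.1 := by
  have h1 : HasFDerivAt C (fderiv ℝ C p) p :=
    ((hC.contDiffAt ((open_UI hU R').mem_nhds hp)).differentiableAt (by simp)).hasFDerivAt
  have h2 : HasFDerivAt (fun y : V d × V d => (y, p.2)) (ContinuousLinearMap.inl ℝ (V d × V d) ℝ) p.1 :=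
    hasFDerivAt_prodMk_left p.1 p.2
  exact HasFDerivAt.comp (g := C) (f := fun y : V d × V d => (y, p.2)) p.1 h1 h2

private theorem part_eq {U : Set (V d × V d)} (hU : IsOpen U) {R' : ℝ} {C : (V d × V d) × ℝ → ℝ}
    (hC : ContDiffOn ℝ ∞ C (U ×ˢ Set.Ioo (-R') R')) {p : (V d × V d) × ℝ}
    (hp : p ∈ U ×ˢ Set.Ioo (-R') R') (h : V d × V d) :
    fderiv ℝ (fun y => C (y, p.2)) p.1 h = fderiv ℝ C p (h, 0) := by
  rw [(part_fderiv hU hC hp).fderiv]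
  rfl

private theorem part_smooth {U : Set (V d × V d)} (hU : IsOpen U) {R' : ℝ} {C : (V d × V d) × ℝ → ℝ}
    (hC : ContDiffOn ℝ ∞ C (U ×ˢ Set.Ioo (-R') R')) (h : V d × V d) :
    ContDiffOn ℝ ∞ (fun p : (V d × V d) × ℝ => fderiv ℝ (fun y => C (y, p.2)) p.1 h)
      (U ×ˢ Set.Ioo (-R') R') := by
  have h1 : ContDiffOn ℝ ∞ (fun p => fderiv ℝ C p (h, 0)) (U ×ˢ Set.Ioo (-R') R') :=
    (hC.fderiv_of_isOpen (open_UI hU R') (by simp)).clm_apply contDiffOn_const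
  exact h1.congr fun p hp => part_eq hU hC hp h

private theorem line_smooth : ContDiff ℝ ∞ (fun p : (V d × V d) × ℝ => p.1.1 + p.2 • p.1.2) :=
  (contDiff_fst.fst).add (contDiff_snd.smul (contDiff_fst.snd))

private theorem fline_smooth {f : V d → ℝ} (fs : ContDiffOn ℝ ∞ f {0}ᶜ) {U : Set (V d × V d)} {R' : ℝ}
    (hne : ∀ z ∈ U, ∀ τ ∈ Set.Ioo (-R') R', z.1 + τ • z.2 ≠ 0) :
    ContDiffOn ℝ ∞ (fun p : (V d × V d) × ℝ => f (p.1.1 + p.2 • p.1.2)) (U ×ˢ Set.Ioo (-R') R') :=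
  fs.comp line_smooth.contDiffOn fun p hp => hne p.1 hp.1 p.2 hp.2

private theorem dfline_smooth {f : V d → ℝ} (fs : ContDiffOn ℝ ∞ f {0}ᶜ) {U : Set (V d × V d)} {R' : ℝ}
    (hne : ∀ z ∈ U, ∀ τ ∈ Set.Ioo (-R') R', z.1 + τ • z.2 ≠ 0) (A : V d) :
    ContDiffOn ℝ ∞ (fun p : (V d × V d) × ℝ => fderiv ℝ f (p.1.1 + p.2 • p.1.2) A) (U ×ˢ Set.Ioo (-R') R') := by
  have h1 : ContDiffOn ℝ ∞ (fun x => fderiv ℝ f x A) {0}ᶜ :=
    (fs.fderiv_of_isOpen isOpen_compl_singleton (by simp)).clm_apply contDiffOn_const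
  exact h1.comp line_smooth.contDiffOn fun p hp => hne p.1 hp.1 p.2 hp.2

theorem Ii_fderiv (f : V d → ℝ) (fs : ContDiffOn ℝ ∞ f {0}ᶜ) (U : Set (V d × V d)) (hU : IsOpen U) (R R' : ℝ)
    (hR : 0 < R) (hR' : R < R') (hne : ∀ z ∈ U, ∀ τ ∈ Set.Ioo (-R') R', z.1 + τ • z.2 ≠ 0) (b : ℝ → ℝ)
    (hb : ContDiff ℝ ∞ b) (n : ℕ) (C : (V d × V d) × ℝ → ℝ) (hC : ContDiffOn ℝ ∞ C (U ×ˢ Set.Ioo (-R') R')) :
    ContDiffOn ℝ ∞ (Ii f R b n C) U ∧ ∀ z ∈ U, ∀ h : V d × V d, fderiv ℝ (Ii f R b n C) z h =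
      ∫ τ in (-R)..R, (iteratedDeriv (n + 1) b (f (z.1 + τ • z.2)) *
          (fderiv ℝ f (z.1 + τ • z.2) (h.1 + τ • h.2) * C (z, τ)) +
        iteratedDeriv n b (f (z.1 + τ • z.2)) * fderiv ℝ (fun y => C (y, τ)) z h) := by
  obtain ⟨G, hG⟩ : ∃ G : (V d × V d) × ℝ → ℝ,
      G = fun p => iteratedDeriv n b (f (p.1.1 + p.2 • p.1.2)) * C p := ⟨_, rfl⟩
  have hGs : ContDiffOn ℝ ∞ G (U ×ˢ Set.Ioo (-R') R') := by
    rw [hG]
    exact ((smooth_iter hb n).comp_contDiffOn (fline_smooth fs hne)).mul hC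
  obtain ⟨ℓ, hℓ⟩ : ∃ ℓ : (V d × V d) × ℝ → (V d × V d) × ℝ,
      ℓ = fun p => (p.1, 2 * R * p.2 + -R) := ⟨_, rfl⟩
  have hℓs : ContDiff ℝ ∞ ℓ := by
    rw [hℓ]
    exact contDiff_fst.prodMk ((contDiff_const.mul contDiff_snd).add contDiff_const)
  obtain ⟨F, hF⟩ : ∃ F : (V d × V d) × ℝ → ℝ, F = fun p => 2 * R * G (ℓ p) := ⟨_, rfl⟩
  have hV : IsOpen (ℓ ⁻¹' (U ×ˢ Set.Ioo (-R') R')) := (open_UI hU R').preimage hℓs.continuous
  have hFs : ContDiffOn ℝ ∞ F (ℓ ⁻¹' (U ×ˢ Set.Ioo (-R') R')) := by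
    rw [hF]
    exact contDiffOn_const.mul (hGs.comp hℓs.contDiffOn fun p hp => hp)
  have hmem : ∀ x ∈ U, ∀ t ∈ Set.Icc (0 : ℝ) 1, (x, t) ∈ ℓ ⁻¹' (U ×ˢ Set.Ioo (-R') R') := by
    intro x hx t ht
    rw [Set.mem_preimage, hℓ]
    refine ⟨hx, ?_, ?_⟩
    · show -R' < 2 * R * t + -R
      nlinarith [ht.1]
    · show 2 * R * t + -R < R'
      nlinarith [ht.2]
  obtain ⟨k1, k2⟩ := E214.contDiffOn_param_integral U hU _ hV hmem F hFs
  have hsub : ∀ g : ℝ → ℝ, (∫ t in (0 : ℝ)..1, 2 * R * g (2 * R * t + -R)) = ∫ τ in (-R)..R, g τ := by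
    intro g
    rw [intervalIntegral.integral_const_mul, intervalIntegral.mul_integral_comp_mul_add]
    congr 1 <;> ring
  have hIi : Ii f R b n C = fun x => ∫ t in (0 : ℝ)..1, F (x, t) := by
    funext z
    rw [hF, hℓ]
    have h1 := hsub (fun τ => G (z, τ))
    rw [hG] at h1 ⊢
    exact h1.symm
  rw [hIi]
  refine ⟨k1, fun z hz h => ?_⟩
  rw [k2 z hz h]
  have hder : ∀ t ∈ Set.Icc (0 : ℝ) 1, fderiv ℝ F (z, t) (h, 0) =
      2 * R * fderiv ℝ G (z, 2 * R * t + -R) (h, 0) := by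
    intro t ht
    have hm : (z, 2 * R * t + -R) ∈ U ×ˢ Set.Ioo (-R') R' := by
      have := hmem z hz t ht
      rw [Set.mem_preimage, hℓ] at this
      exact this
    have hGd : HasFDerivAt G (fderiv ℝ G (z, 2 * R * t + -R)) (z, 2 * R * t + -R) :=
      ((hGs.contDiffAt ((open_UI hU R').mem_nhds hm)).differentiableAt (by simp)).hasFDerivAt
    have hm2 : (z, t) ∈ ℓ ⁻¹' (U ×ˢ Set.Ioo (-R') R') := hmem z hz t ht
    have hFd : HasFDerivAt F (fderiv ℝ F (z, t)) (z, t) :=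
      ((hFs.contDiffAt (hV.mem_nhds hm2)).differentiableAt (by simp)).hasFDerivAt
    -- compare the derivatives along the first variable
    have h1 : HasFDerivAt (fun y : V d × V d => F (y, t))
        ((fderiv ℝ F (z, t)).comp (ContinuousLinearMap.inl ℝ (V d × V d) ℝ)) z :=
      HasFDerivAt.comp (g := F) (f := fun y : V d × V d => (y, t)) z hFd
        (hasFDerivAt_prodMk_left z t)
    have h2 : HasFDerivAt (fun y : V d × V d => 2 * R * G (y, 2 * R * t + -R))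
        ((2 * R) • ((fderiv ℝ G (z, 2 * R * t + -R)).comp
          (ContinuousLinearMap.inl ℝ (V d × V d) ℝ))) z :=
      (HasFDerivAt.comp (g := G) (f := fun y : V d × V d => (y, 2 * R * t + -R)) z hGd
        (hasFDerivAt_prodMk_left z (2 * R * t + -R))).const_mul (2 * R)
    have h3 : (fun y : V d × V d => F (y, t)) = fun y => 2 * R * G (y, 2 * R * t + -R) := by
      rw [hF, hℓ]
    rw [h3] at h1
    have h4 := congrArg (fun L : V d × V d →L[ℝ] ℝ => L h) (h1.unique h2)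
    simpa using h4
  have hcong : (∫ t in (0 : ℝ)..1, fderiv ℝ F (z, t) (h, 0)) =
      ∫ t in (0 : ℝ)..1, 2 * R * fderiv ℝ G (z, 2 * R * t + -R) (h, 0) := by
    apply intervalIntegral.integral_congr
    intro t ht
    rw [Set.uIcc_of_le zero_le_one] at ht
    exact hder t ht
  rw [hcong, hsub (fun τ => fderiv ℝ G (z, τ) (h, 0))]
  apply intervalIntegral.integral_congr
  intro τ hτ
  rw [Set.uIcc_of_le (by linarith)] at hτ
  have hm : (z, τ) ∈ U ×ˢ Set.Ioo (-R') R' := ⟨hz, by linarith [hτ.1], by linarith [hτ.2]⟩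
  show fderiv ℝ G (z, τ) (h, 0) = _
  rw [← part_eq hU hGs hm h]
  have hx0 : z.1 + τ • z.2 ∈ ({0}ᶜ : Set (V d)) := hne z hz τ hm.2
  have hfd : HasFDerivAt f (fderiv ℝ f (z.1 + τ • z.2)) (z.1 + τ • z.2) :=
    ((fs.contDiffAt (isOpen_compl_singleton.mem_nhds hx0)).differentiableAt (by simp)).hasFDerivAt
  have hL : HasFDerivAt (fun y : V d × V d => y.1 + τ • y.2)
      (ContinuousLinearMap.fst ℝ (V d) (V d) + τ • ContinuousLinearMap.snd ℝ (V d) (V d)) z :=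
    hasFDerivAt_fst.add (hasFDerivAt_snd.const_smul τ)
  have hf1 := HasFDerivAt.comp (g := f) (f := fun y : V d × V d => y.1 + τ • y.2) z hfd hL
  have hf2 := (deriv_iter hb n (f (z.1 + τ • z.2))).comp_hasFDerivAt z hf1
  have hC1 := part_fderiv hU hC hm
  have hC2 : HasFDerivAt (fun y => C (y, τ)) (fderiv ℝ (fun y => C (y, τ)) z) z :=
    hC1.differentiableAt.hasFDerivAt
  have hprod := hf2.mul hC2
  have hGe : (fun y => G (y, τ)) =
      fun y : V d × V d => iteratedDeriv n b (f (y.1 + τ • y.2)) * C (y, τ) := by rw [hG]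
  show fderiv ℝ (fun y => G (y, τ)) z h = _
  rw [hGe]
  have h5 : fderiv ℝ (fun y : V d × V d => iteratedDeriv n b (f (y.1 + τ • y.2)) * C (y, τ)) z = _ :=
    hprod.fderiv
  rw [h5]
  simp only [ContinuousLinearMap.add_apply, ContinuousLinearMap.smul_apply,
    ContinuousLinearMap.comp_apply, ContinuousLinearMap.coe_fst', ContinuousLinearMap.coe_snd',
    smul_eq_mul, Function.comp_apply]
  ring

theorem TT_smooth (f : V d → ℝ) (fs : ContDiffOn ℝ ∞ f {0}ᶜ) (U : Set (V d × V d)) (hU : IsOpen U) (R' : ℝ)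
    (hne : ∀ z ∈ U, ∀ τ ∈ Set.Ioo (-R') R', z.1 + τ • z.2 ≠ 0) (A B : V d)
    (C : (V d × V d) × ℝ → ℝ) (hC : ContDiffOn ℝ ∞ C (U ×ˢ Set.Ioo (-R') R')) :
    ContDiffOn ℝ ∞ (TT f A B C) (U ×ˢ Set.Ioo (-R') R') := by
  have h2 : ContDiffOn ℝ ∞ (fun p : (V d × V d) × ℝ => p.2) (U ×ˢ Set.Ioo (-R') R') := contDiffOn_snd
  unfold TT
  exact ((dfline_smooth fs hne A).mul ((part_smooth hU hC _).sub (h2.mul (part_smooth hU hC _)))).sub
    ((dfline_smooth fs hne B).mul ((part_smooth hU hC _).sub (h2.mul (part_smooth hU hC _))))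

private theorem second_smooth {U : Set (V d × V d)} (hU : IsOpen U) {R' : ℝ} {C : (V d × V d) × ℝ → ℝ}
    (hC : ContDiffOn ℝ ∞ C (U ×ˢ Set.Ioo (-R') R')) (h k : V d × V d) :
    ContDiffOn ℝ ∞ (fun p : (V d × V d) × ℝ =>
      fderiv ℝ (fun y => fderiv ℝ (fun y' => C (y', p.2)) y h) p.1 k) (U ×ˢ Set.Ioo (-R') R') :=
  part_smooth hU (C := fun p => fderiv ℝ (fun y' => C (y', p.2)) p.1 h) (part_smooth hU hC h) k

theorem JC_smooth (U : Set (V d × V d)) (hU : IsOpen U) (R' : ℝ) (A B : V d)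
    (C : (V d × V d) × ℝ → ℝ) (hC : ContDiffOn ℝ ∞ C (U ×ˢ Set.Ioo (-R') R')) :
    ContDiffOn ℝ ∞ (JC A B C) (U ×ˢ Set.Ioo (-R') R') := by
  unfold JC JJ
  exact (second_smooth hU hC _ _).sub (second_smooth hU hC _ _)

private theorem psi_smooth {U : Set (V d × V d)} (hU : IsOpen U) {R' : ℝ} {ψ : V d × V d → ℝ}
    (hψ : ContDiffOn ℝ ∞ ψ U) (h : V d × V d) :
    ContDiffOn ℝ ∞ (fun p : (V d × V d) × ℝ => fderiv ℝ ψ p.1 h) (U ×ˢ Set.Ioo (-R') R') := by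
  have h1 : ContDiffOn ℝ ∞ (fun z => fderiv ℝ ψ z h) U :=
    (hψ.fderiv_of_isOpen hU (by simp)).clm_apply contDiffOn_const
  exact h1.comp contDiffOn_fst fun p hp => hp.1

theorem qq_smooth (f : V d → ℝ) (fs : ContDiffOn ℝ ∞ f {0}ᶜ) (U : Set (V d × V d)) (hU : IsOpen U) (R' : ℝ)
    (hne : ∀ z ∈ U, ∀ τ ∈ Set.Ioo (-R') R', z.1 + τ • z.2 ≠ 0) (ψ : V d × V d → ℝ) (hψ : ContDiffOn ℝ ∞ ψ U) :
    ContDiffOn ℝ ∞ (qq f ψ) (U ×ˢ Set.Ioo (-R') R') := by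
  have h2 : ContDiffOn ℝ ∞ (fun p : (V d × V d) × ℝ => p.2) (U ×ˢ Set.Ioo (-R') R') := contDiffOn_snd
  unfold qq
  exact ContDiffOn.sum fun i _ => (dfline_smooth fs hne _).mul
    ((psi_smooth hU hψ _).sub (h2.mul (psi_smooth hU hψ _)))

theorem brC_smooth (U : Set (V d × V d)) (hU : IsOpen U) (R' : ℝ) (ψ : V d × V d → ℝ) (hψ : ContDiffOn ℝ ∞ ψ U)
    (C : (V d × V d) × ℝ → ℝ) (hC : ContDiffOn ℝ ∞ C (U ×ˢ Set.Ioo (-R') R')) :
    ContDiffOn ℝ ∞ (fun p : (V d × V d) × ℝ => br (fun y => C (y, p.2)) ψ p.1) (U ×ˢ Set.Ioo (-R') R') := by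
  unfold br
  exact ContDiffOn.sum fun i _ => ((part_smooth hU hC _).mul (psi_smooth hU hψ _)).sub
    ((part_smooth hU hC _).mul (psi_smooth hU hψ _))

end Pool.Agent.Work.MP_659252_gt.QR
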