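import Pool.Agent.Work.MP_659252_gt.QR.J.RepA

/-!
# The John operator on `Ii`.  Size: M.

PROOF.  Write `c = z.1 + τ z.2`, `f_A = fderiv f c A`, `C_A = fderiv (fun y => C (y, τ)) z (A, 0)`, `C'_A = fderiv (..) z (0, A)`.  `Ii_fderiv` with `h = (0, B)`:
`fderiv (Ii n C) z (0, B) = Ii (n+1) [τ f_B C] z + Ii n [C'_B] z` for `z ∈ U`, where the bracket functions are smooth on `U × (-R', R')`; apply `Ii_fderiv` to both with `h = (A, 0)` (the equality holds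
on the open set `U`, so it may be differentiated):
`Ii (n+2) [f_A τ f_B C] + Ii (n+1) [τ f_{BA} C + τ f_B C_A] + Ii (n+1) [f_A C'_B] + Ii n [C'_{BA}]`, `f_{BA}` the second derivative of `f`.  Subtract the same with `A` and `B` exchanged: the terms `n+2`
cancel, `f_{BA} = f_{AB}` cancel, and what remains is `Ii (n+1) [τ f_B C_A - τ f_A C_B + f_A C'_B - f_B C'_A] + Ii n [JC]`, and the bracket is `TT`.  (All integrals are over `[-R, R]`, integrands
continuous: linearity of the integral.)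
-/

namespace Pool.Agent.Work.MP_659252_gt.QR

open scoped ContDiff Topology
open Pool.Agent.Work.MP_659252_gt.Z (V Ten val Tan InT IsZoll IsMetric IsGeodesic)

variable {d : ℕ}

/-- the coefficient from the derivative of the profile -/
private noncomputable def ra (f : V d → ℝ) (h : V d × V d) (φ : (V d × V d) × ℝ → ℝ) :
    (V d × V d) × ℝ → ℝ := fun p => fderiv ℝ f (p.1.1 + p.2 • p.1.2) (h.1 + p.2 • h.2) * φ p

/-- the coefficient from the derivative of the coefficient -/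
private noncomputable def rg (h : V d × V d) (φ : (V d × V d) × ℝ → ℝ) : (V d × V d) × ℝ → ℝ :=
  fun p => fderiv ℝ (fun y => φ (y, p.2)) p.1 h

private theorem rb_c (τ : ℝ) (y : V d × V d) : HasFDerivAt (fun y : V d × V d => y.1 + τ • y.2)
    (ContinuousLinearMap.fst ℝ (V d) (V d) + τ • ContinuousLinearMap.snd ℝ (V d) (V d)) y :=
  hasFDerivAt_fst.add (hasFDerivAt_snd.const_smul τ)

private theorem rb_smf (f : V d → ℝ) (fs : ContDiffOn ℝ ∞ f {0}ᶜ) (U : Set (V d × V d)) (R' : ℝ)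
    (hne : ∀ z ∈ U, ∀ τ ∈ Set.Ioo (-R') R', z.1 + τ • z.2 ≠ 0) :
    ContDiffOn ℝ ∞ (fun p : (V d × V d) × ℝ => fderiv ℝ f (p.1.1 + p.2 • p.1.2))
      (U ×ˢ Set.Ioo (-R') R') := by
  have h1 : ContDiffOn ℝ ∞ (fderiv ℝ f) ({0}ᶜ : Set (V d)) :=
    fs.fderiv_of_isOpen isOpen_compl_singleton (by simp)
  have h2 : ContDiff ℝ ∞ (fun p : (V d × V d) × ℝ => p.1.1 + p.2 • p.1.2) := by fun_prop
  exact h1.comp h2.contDiffOn fun p hp => hne p.1 hp.1 p.2 hp.2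

private theorem rb_sma (f : V d → ℝ) (fs : ContDiffOn ℝ ∞ f {0}ᶜ) (U : Set (V d × V d)) (R' : ℝ)
    (hne : ∀ z ∈ U, ∀ τ ∈ Set.Ioo (-R') R', z.1 + τ • z.2 ≠ 0) (h : V d × V d)
    (φ : (V d × V d) × ℝ → ℝ) (hφ : ContDiffOn ℝ ∞ φ (U ×ˢ Set.Ioo (-R') R')) :
    ContDiffOn ℝ ∞ (ra f h φ) (U ×ˢ Set.Ioo (-R') R') := by
  have h2 : ContDiff ℝ ∞ (fun p : (V d × V d) × ℝ => h.1 + p.2 • h.2) := by fun_prop
  exact ((rb_smf f fs U R' hne).clm_apply h2.contDiffOn).mul hφ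

private theorem rb_part (U : Set (V d × V d)) (hU : IsOpen U) (R' : ℝ)
    (φ : (V d × V d) × ℝ → ℝ) (hφ : ContDiffOn ℝ ∞ φ (U ×ˢ Set.Ioo (-R') R')) (p : (V d × V d) × ℝ)
    (hp : p ∈ U ×ˢ Set.Ioo (-R') R') :
    HasFDerivAt (fun y => φ (y, p.2)) ((fderiv ℝ φ p).comp (ContinuousLinearMap.inl ℝ (V d × V d) ℝ)) p.1 := by
  have h1 : HasFDerivAt φ (fderiv ℝ φ p) (p.1, p.2) :=
    ((hφ.contDiffAt ((hU.prod isOpen_Ioo).mem_nhds hp)).differentiableAt (by simp)).hasFDerivAt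
  exact h1.comp p.1 (hasFDerivAt_prodMk_left p.1 p.2)

private theorem rb_smg (U : Set (V d × V d)) (hU : IsOpen U) (R' : ℝ) (h : V d × V d)
    (φ : (V d × V d) × ℝ → ℝ) (hφ : ContDiffOn ℝ ∞ φ (U ×ˢ Set.Ioo (-R') R')) :
    ContDiffOn ℝ ∞ (rg h φ) (U ×ˢ Set.Ioo (-R') R') := by
  have h1 : ContDiffOn ℝ ∞ (fun p => fderiv ℝ φ p (h, 0)) (U ×ˢ Set.Ioo (-R') R') :=
    (hφ.fderiv_of_isOpen (hU.prod isOpen_Ioo) (by simp)).clm_apply contDiffOn_const
  refine h1.congr fun p hp => ?_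
  unfold rg
  rw [(rb_part U hU R' φ hφ p hp).fderiv]
  simp

section

variable (f : V d → ℝ) (fs : ContDiffOn ℝ ∞ f {0}ᶜ) (U : Set (V d × V d)) (hU : IsOpen U) (R R' : ℝ)
    (hR : 0 < R) (hR' : R < R') (hne : ∀ z ∈ U, ∀ τ ∈ Set.Ioo (-R') R', z.1 + τ • z.2 ≠ 0) (b : ℝ → ℝ)
    (hb : ContDiff ℝ ∞ b)

include fs hR hR' hne hb in
private theorem rb_int (m : ℕ) (φ : (V d × V d) × ℝ → ℝ)
    (hφ : ContDiffOn ℝ ∞ φ (U ×ˢ Set.Ioo (-R') R')) (z : V d × V d) (hz : z ∈ U) :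
    IntervalIntegrable (fun τ => iteratedDeriv m b (f (z.1 + τ • z.2)) * φ (z, τ))
      MeasureTheory.volume (-R) R := by
  apply ContinuousOn.intervalIntegrable
  rw [Set.uIcc_of_le (by linarith)]
  have hsub : ∀ τ ∈ Set.Icc (-R) R, τ ∈ Set.Ioo (-R') R' := fun τ hτ =>
    ⟨by linarith [hτ.1], by linarith [hτ.2]⟩
  have c1 : Continuous (iteratedDeriv m b) := hb.continuous_iteratedDeriv m (by exact_mod_cast le_top)
  have c2 : ContinuousOn (fun τ : ℝ => f (z.1 + τ • z.2)) (Set.Icc (-R) R) :=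
    fs.continuousOn.comp (by fun_prop) fun τ hτ => hne z hz τ (hsub τ hτ)
  have c3 : ContinuousOn (fun τ : ℝ => φ (z, τ)) (Set.Icc (-R) R) :=
    hφ.continuousOn.comp (by fun_prop) fun τ hτ => ⟨hz, hsub τ hτ⟩
  exact (c1.comp_continuousOn c2).mul c3

include fs hR hR' hne hb in
private theorem rb_add (m : ℕ) (φ ψ : (V d × V d) × ℝ → ℝ)
    (hφ : ContDiffOn ℝ ∞ φ (U ×ˢ Set.Ioo (-R') R')) (hψ : ContDiffOn ℝ ∞ ψ (U ×ˢ Set.Ioo (-R') R'))
    (z : V d × V d) (hz : z ∈ U) :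
    Ii f R b m φ z + Ii f R b m ψ z = Ii f R b m (fun p => φ p + ψ p) z := by
  unfold Ii
  rw [← intervalIntegral.integral_add (rb_int f fs U R R' hR hR' hne b hb m φ hφ z hz)
    (rb_int f fs U R R' hR hR' hne b hb m ψ hψ z hz)]
  congr 1
  funext τ
  ring

include fs hR hR' hne hb in
private theorem rb_sub (m : ℕ) (φ ψ : (V d × V d) × ℝ → ℝ)
    (hφ : ContDiffOn ℝ ∞ φ (U ×ˢ Set.Ioo (-R') R')) (hψ : ContDiffOn ℝ ∞ ψ (U ×ˢ Set.Ioo (-R') R'))
    (z : V d × V d) (hz : z ∈ U) :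
    Ii f R b m φ z - Ii f R b m ψ z = Ii f R b m (fun p => φ p - ψ p) z := by
  unfold Ii
  rw [← intervalIntegral.integral_sub (rb_int f fs U R R' hR hR' hne b hb m φ hφ z hz)
    (rb_int f fs U R R' hR hR' hne b hb m ψ hψ z hz)]
  congr 1
  funext τ
  ring

include hR in
private theorem rb_cg (m : ℕ) (φ ψ : (V d × V d) × ℝ → ℝ) (z : V d × V d)
    (h : ∀ τ ∈ Set.Icc (-R) R, φ (z, τ) = ψ (z, τ)) : Ii f R b m φ z = Ii f R b m ψ z := by
  unfold Ii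
  apply intervalIntegral.integral_congr
  intro τ hτ
  rw [Set.uIcc_of_le (by linarith)] at hτ
  show iteratedDeriv m b (f (z.1 + τ • z.2)) * φ (z, τ) =
    iteratedDeriv m b (f (z.1 + τ • z.2)) * ψ (z, τ)
  rw [h τ hτ]

include fs hU hR hR' hne hb in
private theorem rb_first (m : ℕ) (φ : (V d × V d) × ℝ → ℝ)
    (hφ : ContDiffOn ℝ ∞ φ (U ×ˢ Set.Ioo (-R') R')) (z : V d × V d) (hz : z ∈ U) (h : V d × V d) :
    fderiv ℝ (Ii f R b m φ) z h = Ii f R b (m + 1) (ra f h φ) z + Ii f R b m (rg h φ) z := by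
  rw [(Ii_fderiv f fs U hU R R' hR hR' hne b hb m φ hφ).2 z hz h]
  unfold Ii
  rw [← intervalIntegral.integral_add
    (rb_int f fs U R R' hR hR' hne b hb (m + 1) _ (rb_sma f fs U R' hne h φ hφ) z hz)
    (rb_int f fs U R R' hR hR' hne b hb m _ (rb_smg U hU R' h φ hφ) z hz)]
  rfl

include fs hU hR hR' hne hb in
private theorem rb_second (m : ℕ) (φ : (V d × V d) × ℝ → ℝ)
    (hφ : ContDiffOn ℝ ∞ φ (U ×ˢ Set.Ioo (-R') R')) (z : V d × V d) (hz : z ∈ U) (h h' : V d × V d) :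
    fderiv ℝ (fun y => fderiv ℝ (Ii f R b m φ) y h) z h' =
      (Ii f R b (m + 2) (ra f h' (ra f h φ)) z + Ii f R b (m + 1) (rg h' (ra f h φ)) z) +
      (Ii f R b (m + 1) (ra f h' (rg h φ)) z + Ii f R b m (rg h' (rg h φ)) z) := by
  have e : (fun y => fderiv ℝ (Ii f R b m φ) y h) =ᶠ[𝓝 z]
      (Ii f R b (m + 1) (ra f h φ)) + (Ii f R b m (rg h φ)) := by
    filter_upwards [hU.mem_nhds hz] with y hy
    exact rb_first f fs U hU R R' hR hR' hne b hb m φ hφ y hy h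
  have s1 := rb_sma f fs U R' hne h φ hφ
  have s2 := rb_smg U hU R' h φ hφ
  have d1 : DifferentiableAt ℝ (Ii f R b (m + 1) (ra f h φ)) z :=
    ((Ii_fderiv f fs U hU R R' hR hR' hne b hb (m + 1) _ s1).1.contDiffAt
      (hU.mem_nhds hz)).differentiableAt (by simp)
  have d2 : DifferentiableAt ℝ (Ii f R b m (rg h φ)) z :=
    ((Ii_fderiv f fs U hU R R' hR hR' hne b hb m _ s2).1.contDiffAt
      (hU.mem_nhds hz)).differentiableAt (by simp)
  rw [e.fderiv_eq, fderiv_add d1 d2, add_apply,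
    rb_first f fs U hU R R' hR hR' hne b hb (m + 1) _ s1 z hz h',
    rb_first f fs U hU R R' hR hR' hne b hb m _ s2 z hz h']

end

theorem Ii_JJ (f : V d → ℝ) (fs : ContDiffOn ℝ ∞ f {0}ᶜ) (U : Set (V d × V d)) (hU : IsOpen U) (R R' : ℝ)
    (hR : 0 < R) (hR' : R < R') (hne : ∀ z ∈ U, ∀ τ ∈ Set.Ioo (-R') R', z.1 + τ • z.2 ≠ 0) (b : ℝ → ℝ)
    (hb : ContDiff ℝ ∞ b) (n : ℕ) (A B : V d) (C : (V d × V d) × ℝ → ℝ)
    (hC : ContDiffOn ℝ ∞ C (U ×ˢ Set.Ioo (-R') R')) (z : V d × V d) (hz : z ∈ U) :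
    JJ A B (Ii f R b n C) z = Ii f R b (n + 1) (TT f A B C) z + Ii f R b n (JC A B C) z := by
  have hsub : ∀ τ ∈ Set.Icc (-R) R, τ ∈ Set.Ioo (-R') R' := fun τ hτ =>
    ⟨by linarith [hτ.1], by linarith [hτ.2]⟩
  have hA := rb_second f fs U hU R R' hR hR' hne b hb n C hC z hz (0, B) (A, 0)
  have hB := rb_second f fs U hU R R' hR hR' hne b hb n C hC z hz (0, A) (B, 0)
  have sma := rb_sma f fs U R' hne
  have smg := rb_smg U hU R'
  -- order `n + 2`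
  have e2 : Ii f R b (n + 2) (ra f (A, 0) (ra f (0, B) C)) z =
      Ii f R b (n + 2) (ra f (B, 0) (ra f (0, A) C)) z := by
    refine rb_cg f R hR b (n + 2) _ _ z fun τ hτ => ?_
    simp only [ra, zero_add, smul_zero, add_zero, map_smul, smul_eq_mul]
    ring
  -- order `n + 1`
  have t1 := rb_add f fs U R R' hR hR' hne b hb (n + 1) _ _
    (smg (A, 0) _ (sma (0, B) C hC)) (sma (A, 0) _ (smg (0, B) C hC)) z hz
  have t2 := rb_add f fs U R R' hR hR' hne b hb (n + 1) _ _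
    (smg (B, 0) _ (sma (0, A) C hC)) (sma (B, 0) _ (smg (0, A) C hC)) z hz
  have t3 := rb_sub f fs U R R' hR hR' hne b hb (n + 1) _ _
    ((smg (A, 0) _ (sma (0, B) C hC)).add (sma (A, 0) _ (smg (0, B) C hC)))
    ((smg (B, 0) _ (sma (0, A) C hC)).add (sma (B, 0) _ (smg (0, A) C hC))) z hz
  -- the derivative of the coefficient
  have key : ∀ (A B : V d) (τ : ℝ), τ ∈ Set.Icc (-R) R → rg (A, 0) (ra f (0, B) C) (z, τ) =
      τ * (fderiv ℝ (fderiv ℝ f) (z.1 + τ • z.2) A B * C (z, τ) +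
        fderiv ℝ f (z.1 + τ • z.2) B * fderiv ℝ (fun y => C (y, τ)) z (A, 0)) := by
    intro A B τ hτ
    have hx : z.1 + τ • z.2 ∈ ({0}ᶜ : Set (V d)) := hne z hz τ (hsub τ hτ)
    have hf2 : HasFDerivAt (fderiv ℝ f) (fderiv ℝ (fderiv ℝ f) (z.1 + τ • z.2)) (z.1 + τ • z.2) := by
      have h1 : ContDiffOn ℝ ∞ (fderiv ℝ f) ({0}ᶜ : Set (V d)) :=
        fs.fderiv_of_isOpen isOpen_compl_singleton (by simp)
      exact ((h1.contDiffAt (isOpen_compl_singleton.mem_nhds hx)).differentiableAt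
        (by simp)).hasFDerivAt
    have h1 : HasFDerivAt (fun y : V d × V d => fderiv ℝ f (y.1 + τ • y.2))
        ((fderiv ℝ (fderiv ℝ f) (z.1 + τ • z.2)).comp
          (ContinuousLinearMap.fst ℝ (V d) (V d) + τ • ContinuousLinearMap.snd ℝ (V d) (V d))) z :=
      hf2.comp z (rb_c τ z)
    have h2 := h1.clm_apply (hasFDerivAt_const (0 + τ • B) z)
    have h3 : HasFDerivAt (fun y => C (y, τ))
        ((fderiv ℝ C (z, τ)).comp (ContinuousLinearMap.inl ℝ (V d × V d) ℝ)) z :=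
      rb_part U hU R' C hC (z, τ) ⟨hz, hsub τ hτ⟩
    have h4 : HasFDerivAt (fun y : V d × V d => fderiv ℝ f (y.1 + τ • y.2) (0 + τ • B) * C (y, τ))
        _ z := h2.mul h3
    have h5 : rg (A, 0) (ra f (0, B) C) (z, τ) = fderiv ℝ (fun y : V d × V d =>
        fderiv ℝ f (y.1 + τ • y.2) (0 + τ • B) * C (y, τ)) z (A, 0) := rfl
    rw [h5, h4.fderiv, h3.fderiv]
    simp only [ContinuousLinearMap.add_apply, ContinuousLinearMap.smul_apply,
      ContinuousLinearMap.comp_apply, ContinuousLinearMap.flip_apply, ContinuousLinearMap.coe_fst',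
      ContinuousLinearMap.coe_snd', ContinuousLinearMap.zero_apply, map_zero, zero_add, smul_zero,
      add_zero, map_smul, smul_eq_mul]
    ring
  have sym : ∀ τ ∈ Set.Icc (-R) R, fderiv ℝ (fderiv ℝ f) (z.1 + τ • z.2) A B =
      fderiv ℝ (fderiv ℝ f) (z.1 + τ • z.2) B A := by
    intro τ hτ
    have hx : z.1 + τ • z.2 ∈ ({0}ᶜ : Set (V d)) := hne z hz τ (hsub τ hτ)
    have h1 : ContDiffAt ℝ ∞ f (z.1 + τ • z.2) := fs.contDiffAt (isOpen_compl_singleton.mem_nhds hx)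
    have h2 : ContDiffAt ℝ 2 f (z.1 + τ • z.2) := contDiffAt_infty.1 h1 2
    exact (h2.isSymmSndFDerivAt (by rw [minSmoothness_of_isRCLikeNormedField])) A B
  have e1 : Ii f R b (n + 1) (fun p =>
      (rg (A, 0) (ra f (0, B) C) p + ra f (A, 0) (rg (0, B) C) p) -
      (rg (B, 0) (ra f (0, A) C) p + ra f (B, 0) (rg (0, A) C) p)) z =
      Ii f R b (n + 1) (TT f A B C) z := by
    refine rb_cg f R hR b (n + 1) _ _ z fun τ hτ => ?_
    rw [key A B τ hτ, key B A τ hτ, sym τ hτ]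
    simp only [ra, rg, TT, smul_zero, add_zero]
    ring
  -- order `n`
  have t4 := rb_sub f fs U R R' hR hR' hne b hb n _ _
    (smg (A, 0) _ (smg (0, B) C hC)) (smg (B, 0) _ (smg (0, A) C hC)) z hz
  have e0 : Ii f R b n (fun p => rg (A, 0) (rg (0, B) C) p - rg (B, 0) (rg (0, A) C) p) z =
      Ii f R b n (JC A B C) z := rfl
  unfold JJ
  rw [hA, hB]
  linarith

end Pool.Agent.Work.MP_659252_gt.QR
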