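import Pool.Agent.Work.MP_659252_gt.QR.J.RepB
import Pool.Agent.Work.MP_659252_gt.QR.J.JPhi

/-!
# Three John operators on the bracket.  Size: M.

PROOF.  `Ii_br`: `Ii_fderiv` with `n = 0` and `h = (ee i, 0)`, `(0, ee i)` (`iteratedDeriv 0 b = b`): `fderiv (Ii 0 C) z (ee i, 0) = ∫ b'(f c) f_i C + b(f c) C_i`,
`fderiv (Ii 0 C) z (0, ee i) = ∫ b'(f c) τ f_i C + b(f c) C'_i`; insert in `br`, linearity.
`rep`: on the open set `U`: `br (Ii 0 C) ψ = Ii 1 (C * qq) + Ii 0 D` with smooth `D` (`brC_smooth`).  Apply `Ii_JJ` three times (each time the equality of functions on the open set `U`, `JJ_congr`,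
linearity of `JJ` on smooth functions, `TT_smooth`, `JC_smooth`, `qq_smooth`): the term of order `4` is `TT (TT (TT (C * qq)))`, the others are of order `≤ 3` with smooth coefficients which do not depend on
`b`: put `C' n` = the sum of the coefficients of order `n`.
-/

namespace Pool.Agent.Work.MP_659252_gt.QR

open scoped ContDiff Topology
open Pool.Agent.Work.MP_659252_gt.Z (V Ten val Tan InT IsZoll IsMetric IsGeodesic)

variable {d : ℕ}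

/-- the coefficient from the derivative of the profile -/
private noncomputable def ra (f : V d → ℝ) (h : V d × V d) (φ : (V d × V d) × ℝ → ℝ) :
    (V d × V d) × ℝ → ℝ := fun p => fderiv ℝ f (p.1.1 + p.2 • p.1.2) (h.1 + p.2 • h.2) * φ p

/-- the coefficient from the derivative of the coefficient -/
private noncomputable def rg (h : V d × V d) (φ : (V d × V d) × ℝ → ℝ) : (V d × V d) × ℝ → ℝ :=
  fun p => fderiv ℝ (fun y => φ (y, p.2)) p.1 h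

private theorem rb_c (τ : ℝ) (y : V d × V d) : HasFDerivAt (fun y : V d × V d => y.1 + τ • y.2)
    (ContinuousLinearMap.fst ℝ (V d) (V d) + τ • ContinuousLinearMap.snd ℝ (V d) (V d)) y :=
  hasFDerivAt_fst.add (hasFDerivAt_snd.const_smul τ)

private theorem rb_smf (f : V d → ℝ) (fs : ContDiffOn ℝ ∞ f {0}ᶜ) (U : Set (V d × V d)) (R' : ℝ)
    (hne : ∀ z ∈ U, ∀ τ ∈ Set.Ioo (-R') R', z.1 + τ • z.2 ≠ 0) :
    ContDiffOn ℝ ∞ (fun p : (V d × V d) × ℝ => fderiv ℝ f (p.1.1 + p.2 • p.1.2))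
      (U ×ˢ Set.Ioo (-R') R') := by
  have h1 : ContDiffOn ℝ ∞ (fderiv ℝ f) ({0}ᶜ : Set (V d)) :=
    fs.fderiv_of_isOpen isOpen_compl_singleton (by simp)
  have h2 : ContDiff ℝ ∞ (fun p : (V d × V d) × ℝ => p.1.1 + p.2 • p.1.2) := by fun_prop
  exact h1.comp h2.contDiffOn fun p hp => hne p.1 hp.1 p.2 hp.2

private theorem rb_sma (f : V d → ℝ) (fs : ContDiffOn ℝ ∞ f {0}ᶜ) (U : Set (V d × V d)) (R' : ℝ)
    (hne : ∀ z ∈ U, ∀ τ ∈ Set.Ioo (-R') R', z.1 + τ • z.2 ≠ 0) (h : V d × V d)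
    (φ : (V d × V d) × ℝ → ℝ) (hφ : ContDiffOn ℝ ∞ φ (U ×ˢ Set.Ioo (-R') R')) :
    ContDiffOn ℝ ∞ (ra f h φ) (U ×ˢ Set.Ioo (-R') R') := by
  have h2 : ContDiff ℝ ∞ (fun p : (V d × V d) × ℝ => h.1 + p.2 • h.2) := by fun_prop
  exact ((rb_smf f fs U R' hne).clm_apply h2.contDiffOn).mul hφ

private theorem rb_part (U : Set (V d × V d)) (hU : IsOpen U) (R' : ℝ)
    (φ : (V d × V d) × ℝ → ℝ) (hφ : ContDiffOn ℝ ∞ φ (U ×ˢ Set.Ioo (-R') R')) (p : (V d × V d) × ℝ)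
    (hp : p ∈ U ×ˢ Set.Ioo (-R') R') :
    HasFDerivAt (fun y => φ (y, p.2)) ((fderiv ℝ φ p).comp (ContinuousLinearMap.inl ℝ (V d × V d) ℝ)) p.1 := by
  have h1 : HasFDerivAt φ (fderiv ℝ φ p) (p.1, p.2) :=
    ((hφ.contDiffAt ((hU.prod isOpen_Ioo).mem_nhds hp)).differentiableAt (by simp)).hasFDerivAt
  exact h1.comp p.1 (hasFDerivAt_prodMk_left p.1 p.2)

private theorem rb_smg (U : Set (V d × V d)) (hU : IsOpen U) (R' : ℝ) (h : V d × V d)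
    (φ : (V d × V d) × ℝ → ℝ) (hφ : ContDiffOn ℝ ∞ φ (U ×ˢ Set.Ioo (-R') R')) :
    ContDiffOn ℝ ∞ (rg h φ) (U ×ˢ Set.Ioo (-R') R') := by
  have h1 : ContDiffOn ℝ ∞ (fun p => fderiv ℝ φ p (h, 0)) (U ×ˢ Set.Ioo (-R') R') :=
    (hφ.fderiv_of_isOpen (hU.prod isOpen_Ioo) (by simp)).clm_apply contDiffOn_const
  refine h1.congr fun p hp => ?_
  unfold rg
  rw [(rb_part U hU R' φ hφ p hp).fderiv]
  simp

section

variable (f : V d → ℝ) (fs : ContDiffOn ℝ ∞ f {0}ᶜ) (U : Set (V d × V d)) (hU : IsOpen U) (R R' : ℝ)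
    (hR : 0 < R) (hR' : R < R') (hne : ∀ z ∈ U, ∀ τ ∈ Set.Ioo (-R') R', z.1 + τ • z.2 ≠ 0) (b : ℝ → ℝ)
    (hb : ContDiff ℝ ∞ b)

include fs hR hR' hne hb in
private theorem rb_int (m : ℕ) (φ : (V d × V d) × ℝ → ℝ)
    (hφ : ContDiffOn ℝ ∞ φ (U ×ˢ Set.Ioo (-R') R')) (z : V d × V d) (hz : z ∈ U) :
    IntervalIntegrable (fun τ => iteratedDeriv m b (f (z.1 + τ • z.2)) * φ (z, τ))
      MeasureTheory.volume (-R) R := by
  apply ContinuousOn.intervalIntegrable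
  rw [Set.uIcc_of_le (by linarith)]
  have hsub : ∀ τ ∈ Set.Icc (-R) R, τ ∈ Set.Ioo (-R') R' := fun τ hτ =>
    ⟨by linarith [hτ.1], by linarith [hτ.2]⟩
  have c1 : Continuous (iteratedDeriv m b) := hb.continuous_iteratedDeriv m (by exact_mod_cast le_top)
  have c2 : ContinuousOn (fun τ : ℝ => f (z.1 + τ • z.2)) (Set.Icc (-R) R) :=
    fs.continuousOn.comp (by fun_prop) fun τ hτ => hne z hz τ (hsub τ hτ)
  have c3 : ContinuousOn (fun τ : ℝ => φ (z, τ)) (Set.Icc (-R) R) :=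
    hφ.continuousOn.comp (by fun_prop) fun τ hτ => ⟨hz, hsub τ hτ⟩
  exact (c1.comp_continuousOn c2).mul c3

include fs hR hR' hne hb in
private theorem rb_add (m : ℕ) (φ ψ : (V d × V d) × ℝ → ℝ)
    (hφ : ContDiffOn ℝ ∞ φ (U ×ˢ Set.Ioo (-R') R')) (hψ : ContDiffOn ℝ ∞ ψ (U ×ˢ Set.Ioo (-R') R'))
    (z : V d × V d) (hz : z ∈ U) :
    Ii f R b m φ z + Ii f R b m ψ z = Ii f R b m (fun p => φ p + ψ p) z := by
  unfold Ii
  rw [← intervalIntegral.integral_add (rb_int f fs U R R' hR hR' hne b hb m φ hφ z hz)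
    (rb_int f fs U R R' hR hR' hne b hb m ψ hψ z hz)]
  congr 1
  funext τ
  ring

include fs hR hR' hne hb in
private theorem rb_sub (m : ℕ) (φ ψ : (V d × V d) × ℝ → ℝ)
    (hφ : ContDiffOn ℝ ∞ φ (U ×ˢ Set.Ioo (-R') R')) (hψ : ContDiffOn ℝ ∞ ψ (U ×ˢ Set.Ioo (-R') R'))
    (z : V d × V d) (hz : z ∈ U) :
    Ii f R b m φ z - Ii f R b m ψ z = Ii f R b m (fun p => φ p - ψ p) z := by
  unfold Ii
  rw [← intervalIntegral.integral_sub (rb_int f fs U R R' hR hR' hne b hb m φ hφ z hz)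
    (rb_int f fs U R R' hR hR' hne b hb m ψ hψ z hz)]
  congr 1
  funext τ
  ring

include hR in
private theorem rb_cg (m : ℕ) (φ ψ : (V d × V d) × ℝ → ℝ) (z : V d × V d)
    (h : ∀ τ ∈ Set.Icc (-R) R, φ (z, τ) = ψ (z, τ)) : Ii f R b m φ z = Ii f R b m ψ z := by
  unfold Ii
  apply intervalIntegral.integral_congr
  intro τ hτ
  rw [Set.uIcc_of_le (by linarith)] at hτ
  show iteratedDeriv m b (f (z.1 + τ • z.2)) * φ (z, τ) =
    iteratedDeriv m b (f (z.1 + τ • z.2)) * ψ (z, τ)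
  rw [h τ hτ]

include fs hU hR hR' hne hb in
private theorem rb_first (m : ℕ) (φ : (V d × V d) × ℝ → ℝ)
    (hφ : ContDiffOn ℝ ∞ φ (U ×ˢ Set.Ioo (-R') R')) (z : V d × V d) (hz : z ∈ U) (h : V d × V d) :
    fderiv ℝ (Ii f R b m φ) z h = Ii f R b (m + 1) (ra f h φ) z + Ii f R b m (rg h φ) z := by
  rw [(Ii_fderiv f fs U hU R R' hR hR' hne b hb m φ hφ).2 z hz h]
  unfold Ii
  rw [← intervalIntegral.integral_add
    (rb_int f fs U R R' hR hR' hne b hb (m + 1) _ (rb_sma f fs U R' hne h φ hφ) z hz)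
    (rb_int f fs U R R' hR hR' hne b hb m _ (rb_smg U hU R' h φ hφ) z hz)]
  rfl

include fs hR hR' hne hb in
private theorem rb_lin (m : ℕ) (φ ψ : (V d × V d) × ℝ → ℝ) (c e : ℝ)
    (hφ : ContDiffOn ℝ ∞ φ (U ×ˢ Set.Ioo (-R') R')) (hψ : ContDiffOn ℝ ∞ ψ (U ×ˢ Set.Ioo (-R') R'))
    (z : V d × V d) (hz : z ∈ U) :
    Ii f R b m φ z * c - Ii f R b m ψ z * e = Ii f R b m (fun p => φ p * c - ψ p * e) z := by
  unfold Ii
  rw [← intervalIntegral.integral_mul_const, ← intervalIntegral.integral_mul_const,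
    ← intervalIntegral.integral_sub ((rb_int f fs U R R' hR hR' hne b hb m φ hφ z hz).mul_const c)
    ((rb_int f fs U R R' hR hR' hne b hb m ψ hψ z hz).mul_const e)]
  congr 1
  funext τ
  ring

include fs hR hR' hne hb in
private theorem rb_sum (m : ℕ) {ι : Type*} (S : Finset ι) (φ : ι → (V d × V d) × ℝ → ℝ)
    (hφ : ∀ i, ContDiffOn ℝ ∞ (φ i) (U ×ˢ Set.Ioo (-R') R')) (z : V d × V d) (hz : z ∈ U) :
    ∑ i ∈ S, Ii f R b m (φ i) z = Ii f R b m (fun p => ∑ i ∈ S, φ i p) z := by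
  unfold Ii
  rw [← intervalIntegral.integral_finset_sum fun i _ =>
    rb_int f fs U R R' hR hR' hne b hb m (φ i) (hφ i) z hz]
  congr 1
  funext τ
  rw [Finset.mul_sum]

end

private theorem jj_add (U : Set (V d × V d)) (hU : IsOpen U) (A B : V d) (φ ψ : V d × V d → ℝ)
    (hφ : ContDiffOn ℝ ∞ φ U) (hψ : ContDiffOn ℝ ∞ ψ U) (z : V d × V d) (hz : z ∈ U) :
    JJ A B (fun y => φ y + ψ y) z = JJ A B φ z + JJ A B ψ z := by
  have hd : ∀ {χ : V d × V d → ℝ}, ContDiffOn ℝ ∞ χ U → ∀ y ∈ U, DifferentiableAt ℝ χ y :=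
    fun h y hy => (h.contDiffAt (hU.mem_nhds hy)).differentiableAt (by simp)
  have hs : ∀ {χ : V d × V d → ℝ}, ContDiffOn ℝ ∞ χ U → ∀ w, ContDiffOn ℝ ∞ (fun y => fderiv ℝ χ y w) U :=
    fun h w => (h.fderiv_of_isOpen hU (by simp)).clm_apply contDiffOn_const
  have key : ∀ v w : V d × V d, fderiv ℝ (fun y => fderiv ℝ (fun y => φ y + ψ y) y w) z v =
      fderiv ℝ (fun y => fderiv ℝ φ y w) z v + fderiv ℝ (fun y => fderiv ℝ ψ y w) z v := by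
    intro v w
    have e : (fun y => fderiv ℝ (fun y => φ y + ψ y) y w) =ᶠ[𝓝 z]
        (fun y => fderiv ℝ φ y w) + (fun y => fderiv ℝ ψ y w) := by
      filter_upwards [hU.mem_nhds hz] with y hy
      have h1 : HasFDerivAt (fun y => φ y + ψ y) (fderiv ℝ φ y + fderiv ℝ ψ y) y :=
        (hd hφ y hy).hasFDerivAt.add (hd hψ y hy).hasFDerivAt
      rw [h1.fderiv]
      rfl
    rw [e.fderiv_eq, fderiv_add (hd (hs hφ w) z hz) (hd (hs hψ w) z hz)]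
    rfl
  simp only [JJ]
  rw [key, key]
  ring

private theorem jj_sum (U : Set (V d × V d)) (hU : IsOpen U) (A B : V d) (g : ℕ → V d × V d → ℝ)
    (hg : ∀ n, ContDiffOn ℝ ∞ (g n) U) (z : V d × V d) (hz : z ∈ U) (N : ℕ) :
    JJ A B (fun y => ∑ n ∈ Finset.range N, g n y) z = ∑ n ∈ Finset.range N, JJ A B (g n) z := by
  induction N with
  | zero =>
    simp only [Finset.range_zero, Finset.sum_empty, JJ]
    simp
  | succ N ih =>
    rw [Finset.sum_range_succ, ← ih, ← jj_add U hU A B _ _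
      (ContDiffOn.sum fun n _ => hg n) (hg N) z hz]
    simp only [Finset.sum_range_succ]

private theorem rb_step (f : V d → ℝ) (fs : ContDiffOn ℝ ∞ f {0}ᶜ) (U : Set (V d × V d)) (hU : IsOpen U)
    (R R' : ℝ) (hR : 0 < R) (hR' : R < R')
    (hne : ∀ z ∈ U, ∀ τ ∈ Set.Ioo (-R') R', z.1 + τ • z.2 ≠ 0) (A B : V d) (N : ℕ)
    (T : (V d × V d) × ℝ → ℝ) (hT : ContDiffOn ℝ ∞ T (U ×ˢ Set.Ioo (-R') R'))
    (D : ℕ → (V d × V d) × ℝ → ℝ) (hD : ∀ n, ContDiffOn ℝ ∞ (D n) (U ×ˢ Set.Ioo (-R') R')) :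
    ∃ D' : ℕ → (V d × V d) × ℝ → ℝ, (∀ n, ContDiffOn ℝ ∞ (D' n) (U ×ˢ Set.Ioo (-R') R')) ∧
      ∀ b, ContDiff ℝ ∞ b → ∀ F : V d × V d → ℝ,
        (∀ z ∈ U, F z = Ii f R b N T z + ∑ n ∈ Finset.range N, Ii f R b n (D n) z) →
        ∀ z ∈ U, JJ A B F z = Ii f R b (N + 1) (TT f A B T) z +
          ∑ n ∈ Finset.range (N + 1), Ii f R b n (D' n) z := by
  have sJ : ∀ n, ContDiffOn ℝ ∞ (JC A B (D n)) (U ×ˢ Set.Ioo (-R') R') := fun n =>
    JC_smooth U hU R' A B _ (hD n)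
  have sT : ∀ n, ContDiffOn ℝ ∞ (TT f A B (D n)) (U ×ˢ Set.Ioo (-R') R') := fun n =>
    TT_smooth f fs U hU R' hne A B _ (hD n)
  have sJT := JC_smooth U hU R' A B _ hT
  obtain ⟨X, hX⟩ : ∃ X : ℕ → (V d × V d) × ℝ → ℝ,
      X = fun n => if n = N then JC A B T else JC A B (D n) := ⟨_, rfl⟩
  obtain ⟨Y, hY⟩ : ∃ Y : ℕ → (V d × V d) × ℝ → ℝ,
      Y = fun n => if n = 0 then (fun _ => 0) else TT f A B (D (n - 1)) := ⟨_, rfl⟩
  have sX : ∀ n, ContDiffOn ℝ ∞ (X n) (U ×ˢ Set.Ioo (-R') R') := by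
    intro n
    rw [hX]
    dsimp only
    split_ifs
    · exact sJT
    · exact sJ n
  have sY : ∀ n, ContDiffOn ℝ ∞ (Y n) (U ×ˢ Set.Ioo (-R') R') := by
    intro n
    rw [hY]
    dsimp only
    split_ifs
    · exact contDiffOn_const
    · exact sT (n - 1)
  refine ⟨fun n p => X n p + Y n p, fun n => (sX n).add (sY n), ?_⟩
  intro b hb F hF z hz
  have sI : ∀ n (φ : (V d × V d) × ℝ → ℝ), ContDiffOn ℝ ∞ φ (U ×ˢ Set.Ioo (-R') R') →
      ContDiffOn ℝ ∞ (Ii f R b n φ) U := fun n φ hφ =>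
    (Ii_fderiv f fs U hU R R' hR hR' hne b hb n φ hφ).1
  have e : F =ᶠ[𝓝 z] fun y => Ii f R b N T y + ∑ n ∈ Finset.range N, Ii f R b n (D n) y := by
    filter_upwards [hU.mem_nhds hz] with y hy
    exact hF y hy
  rw [(JJ_congr A B _ _ z e).eq_of_nhds, jj_add U hU A B _ _ (sI N T hT)
    (ContDiffOn.sum fun n _ => sI n _ (hD n)) z hz, jj_sum U hU A B _ (fun n => sI n _ (hD n)) z hz N,
    Ii_JJ f fs U hU R R' hR hR' hne b hb N A B T hT z hz]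
  have e1 : ∀ n, JJ A B (Ii f R b n (D n)) z = Ii f R b (n + 1) (TT f A B (D n)) z +
      Ii f R b n (JC A B (D n)) z := fun n =>
    Ii_JJ f fs U hU R R' hR hR' hne b hb n A B (D n) (hD n) z hz
  simp only [e1]
  have e2 : ∀ n, Ii f R b n (fun p => X n p + Y n p) z = Ii f R b n (X n) z + Ii f R b n (Y n) z :=
    fun n => (rb_add f fs U R R' hR hR' hne b hb n _ _ (sX n) (sY n) z hz).symm
  simp only [e2]
  rw [Finset.sum_add_distrib, Finset.sum_add_distrib, Finset.sum_range_succ (fun n => Ii f R b n (X n) z),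
    Finset.sum_range_succ' (fun n => Ii f R b n (Y n) z)]
  have e3 : X N = JC A B T := by rw [hX]; simp
  have e4 : ∑ n ∈ Finset.range N, Ii f R b n (X n) z = ∑ n ∈ Finset.range N, Ii f R b n (JC A B (D n)) z := by
    refine Finset.sum_congr rfl fun n hn => ?_
    have : n ≠ N := (Finset.mem_range.1 hn).ne
    rw [hX]
    simp [this]
  have e5 : Ii f R b 0 (Y 0) z = 0 := by
    rw [hY]
    simp [Ii]
  have e6 : ∀ n, Y (n + 1) = TT f A B (D n) := by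
    intro n
    rw [hY]
    simp
  rw [e3, e4, e5]
  simp only [e6]
  ring

theorem Ii_br (f : V d → ℝ) (fs : ContDiffOn ℝ ∞ f {0}ᶜ) (U : Set (V d × V d)) (hU : IsOpen U) (R R' : ℝ)
    (hR : 0 < R) (hR' : R < R') (hne : ∀ z ∈ U, ∀ τ ∈ Set.Ioo (-R') R', z.1 + τ • z.2 ≠ 0) (b : ℝ → ℝ)
    (hb : ContDiff ℝ ∞ b) (ψ : V d × V d → ℝ) (hψ : ContDiffOn ℝ ∞ ψ U) (C : (V d × V d) × ℝ → ℝ)
    (hC : ContDiffOn ℝ ∞ C (U ×ˢ Set.Ioo (-R') R')) (z : V d × V d) (hz : z ∈ U) :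
    br (Ii f R b 0 C) ψ z = Ii f R b 1 (fun p => C p * qq f ψ p) z +
      Ii f R b 0 (fun p => br (fun y => C (y, p.2)) ψ p.1) z := by
  have sa := rb_sma f fs U R' hne
  have sg := rb_smg U hU R'
  have hf := rb_first f fs U hU R R' hR hR' hne b hb 0 C hC z hz
  have hl : ∀ (m : ℕ) (φ χ : (V d × V d) × ℝ → ℝ) (c e : ℝ), ContDiffOn ℝ ∞ φ (U ×ˢ Set.Ioo (-R') R') →
      ContDiffOn ℝ ∞ χ (U ×ˢ Set.Ioo (-R') R') →
      Ii f R b m φ z * c - Ii f R b m χ z * e = Ii f R b m (fun p => φ p * c - χ p * e) z :=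
    fun m φ χ c e h1 h2 => rb_lin f fs U R R' hR hR' hne b hb m φ χ c e h1 h2 z hz
  have e1 : br (Ii f R b 0 C) ψ z =
      ∑ i, Ii f R b 1 (fun p => ra f (ee i, 0) C p * fderiv ℝ ψ z (0, ee i) -
          ra f (0, ee i) C p * fderiv ℝ ψ z (ee i, 0)) z +
        ∑ i, Ii f R b 0 (fun p => rg (ee i, 0) C p * fderiv ℝ ψ z (0, ee i) -
          rg (0, ee i) C p * fderiv ℝ ψ z (ee i, 0)) z := by
    rw [← Finset.sum_add_distrib]
    unfold br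
    refine Finset.sum_congr rfl fun i _ => ?_
    rw [hf, hf, ← hl 1 _ _ _ _ (sa _ C hC) (sa _ C hC), ← hl 0 _ _ _ _ (sg _ C hC) (sg _ C hC)]
    ring
  rw [e1, rb_sum f fs U R R' hR hR' hne b hb 1 Finset.univ _ (fun i =>
      ((sa (ee i, 0) C hC).mul contDiffOn_const).sub ((sa (0, ee i) C hC).mul contDiffOn_const)) z hz,
    rb_sum f fs U R R' hR hR' hne b hb 0 Finset.univ _ (fun i =>
      ((sg (ee i, 0) C hC).mul contDiffOn_const).sub ((sg (0, ee i) C hC).mul contDiffOn_const)) z hz]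
  congr 1
  refine rb_cg f R hR b 1 _ _ z fun τ _ => ?_
  simp only [ra, qq, Finset.mul_sum]
  refine Finset.sum_congr rfl fun i _ => ?_
  simp only [zero_add, smul_zero, add_zero, map_smul, smul_eq_mul]
  ring

theorem rep (f : V d → ℝ) (fs : ContDiffOn ℝ ∞ f {0}ᶜ) (U : Set (V d × V d)) (hU : IsOpen U) (R R' : ℝ)
    (hR : 0 < R) (hR' : R < R') (hne : ∀ z ∈ U, ∀ τ ∈ Set.Ioo (-R') R', z.1 + τ • z.2 ≠ 0)
    (ψ : V d × V d → ℝ) (hψ : ContDiffOn ℝ ∞ ψ U) (C : (V d × V d) × ℝ → ℝ)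
    (hC : ContDiffOn ℝ ∞ C (U ×ˢ Set.Ioo (-R') R')) (A B : V d) :
    ∃ C' : ℕ → (V d × V d) × ℝ → ℝ, (∀ n, ContDiffOn ℝ ∞ (C' n) (U ×ˢ Set.Ioo (-R') R')) ∧
      ∀ b, ContDiff ℝ ∞ b → ∀ z ∈ U, JJ A B (JJ A B (JJ A B (br (Ii f R b 0 C) ψ))) z =
        Ii f R b 4 (TT f A B (TT f A B (TT f A B (fun p => C p * qq f ψ p)))) z +
          ∑ n ∈ Finset.range 4, Ii f R b n (C' n) z := by
  have sqq : ContDiffOn ℝ ∞ (fun p => C p * qq f ψ p) (U ×ˢ Set.Ioo (-R') R') :=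
    hC.mul (qq_smooth f fs U hU R' hne ψ hψ)
  have sbr := brC_smooth U hU R' ψ hψ C hC
  obtain ⟨D1, s1, h1⟩ := rb_step f fs U hU R R' hR hR' hne A B 1 _ sqq
    (fun _ p => br (fun y => C (y, p.2)) ψ p.1) (fun _ => sbr)
  have t1 := TT_smooth f fs U hU R' hne A B _ sqq
  obtain ⟨D2, s2, h2⟩ := rb_step f fs U hU R R' hR hR' hne A B 2 _ t1 D1 s1
  have t2 := TT_smooth f fs U hU R' hne A B _ t1
  obtain ⟨D3, s3, h3⟩ := rb_step f fs U hU R R' hR hR' hne A B 3 _ t2 D2 s2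
  refine ⟨D3, s3, fun b hb => ?_⟩
  refine h3 b hb _ (h2 b hb _ (h1 b hb _ ?_))
  intro z hz
  rw [Ii_br f fs U hU R R' hR hR' hne b hb ψ hψ C hC z hz, Finset.sum_range_one]

end Pool.Agent.Work.MP_659252_gt.QR
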