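import Mathlib

/-!
# Concentration at the maximum.  Size: M.

PROOF.  `m - g τ = τ² h τ` with `h` continuous on `ℝ`, `h 0 = κ/2`, `h τ > 0` (define `h τ = (m - g τ)/τ²` for `τ ≠ 0`; continuity at `0` by Taylor's formula).  On `[-R, R]` `h ≥ h₀ > 0` (compactness).
For `e > 0` substitute `τ = e u`: `e⁻¹ ∫_{-R}^{R} χ ((m - g τ)/e²) C τ dτ = ∫_{-R/e}^{R/e} χ (u² h (e u)) C (e u) du` (`intervalIntegral.integral_comp_mul_left` or similar).  The integrand is `0` unless
`u² h (e u) ≤ 2`, so `|u| ≤ √(2/h₀) =: M`; it is bounded by a constant and for every `u` converges to `χ (κ u²/2) C 0` as `e → 0+` (continuity of `χ`, `h`, `C` at `0`).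
Dominated convergence (`MeasureTheory.tendsto_integral_filter_of_dominated_convergence` with the bound constant on `[-M, M]`, `0` outside); write the interval integral as the integral over `ℝ` of the
indicator.  The limit is `C 0 * ∫ u, χ (κ u²/2)`.
-/

namespace Pool.Agent.Work.MP_659252_gt.QR

open scoped ContDiff Topology

private theorem quad_lim (g : ℝ → ℝ) (m κ : ℝ) (hg : ContDiff ℝ ∞ g) (g0 : g 0 = m)
    (g1 : deriv g 0 = 0) (g2 : iteratedDeriv 2 g 0 = -κ) :
    Filter.Tendsto (fun τ => (m - g τ) / τ ^ 2) (𝓝[≠] 0) (𝓝 (κ / 2)) := by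
  have hd : Differentiable ℝ g := hg.differentiable (by simp)
  have hd' : ContDiff ℝ ∞ (deriv g) := hg.deriv'
  have h2 : HasDerivAt (deriv g) (-κ) 0 := by
    have h3 : iteratedDeriv 2 g = deriv (deriv g) := by simp [iteratedDeriv_succ]
    rw [h3] at g2
    rw [← g2]
    exact (hd'.differentiable (by simp) 0).hasDerivAt
  have hslope := hasDerivAt_iff_tendsto_slope.1 h2
  refine deriv.lhopital_zero_nhdsNE (f := fun τ => m - g τ) (g := fun τ => τ ^ 2) ?_ ?_ ?_ ?_ ?_
  · exact Filter.Eventually.of_forall fun x => (hd x).const_sub m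
  · filter_upwards [self_mem_nhdsWithin] with x hx
    have hx' : x ≠ 0 := hx
    simpa using hx'
  · have h : ContinuousAt (fun τ => m - g τ) 0 := (continuous_const.sub hg.continuous).continuousAt
    have h4 := h.tendsto
    simp only [g0, sub_self] at h4
    exact h4.mono_left nhdsWithin_le_nhds
  · have h : ContinuousAt (fun τ : ℝ => τ ^ 2) 0 := by fun_prop
    have h4 := h.tendsto
    simp only [ne_eq, OfNat.ofNat_ne_zero, not_false_eq_true, zero_pow] at h4
    exact h4.mono_left nhdsWithin_le_nhds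
  · have h4 := hslope.const_mul (-(1 / 2))
    have e : -(1 / 2) * -κ = κ / 2 := by ring
    rw [e] at h4
    refine h4.congr' ?_
    filter_upwards [self_mem_nhdsWithin] with x hx
    have hx' : x ≠ 0 := hx
    have e1 : deriv (fun τ => m - g τ) x = -deriv g x := by
      simp
    have e2 : deriv (fun τ : ℝ => τ ^ 2) x = 2 * x := by
      simp
    rw [slope_def_field, g1, e1, e2]
    field_simp
    ring

theorem scale (g C χ : ℝ → ℝ) (R m κ : ℝ) (hR : 0 < R) (hκ : 0 < κ) (hg : ContDiff ℝ ∞ g) (g0 : g 0 = m)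
    (g1 : deriv g 0 = 0) (g2 : iteratedDeriv 2 g 0 = -κ) (hlt : ∀ τ, τ ≠ 0 → g τ < m)
    (hC : ContinuousOn C (Set.Icc (-R) R)) (hχ : Continuous χ) (hs : ∀ s, s ∉ Set.Icc (1 : ℝ) 2 → χ s = 0) :
    Filter.Tendsto (fun e : ℝ => e⁻¹ * ∫ τ in (-R)..R, χ ((m - g τ) / e ^ 2) * C τ) (𝓝[>] 0)
      (𝓝 (C 0 * ∫ u : ℝ, χ (κ * u ^ 2 / 2))) := by
  classical
  have hq := quad_lim g m κ hg g0 g1 g2
  have gc : Continuous g := hg.continuous
  -- the function `h`
  set h : ℝ → ℝ := Function.update (fun τ => (m - g τ) / τ ^ 2) 0 (κ / 2) with hh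
  have h0 : h 0 = κ / 2 := by simp [hh]
  have hne : ∀ τ, τ ≠ 0 → h τ = (m - g τ) / τ ^ 2 := by
    intro τ hτ
    rw [hh, Function.update_of_ne hτ]
  have hcont : Continuous h := by
    rw [continuous_iff_continuousAt]
    intro τ
    by_cases hτ : τ = 0
    · subst hτ
      rw [hh, continuousAt_update_same]
      exact hq
    · have h1 : ContinuousAt (fun τ => (m - g τ) / τ ^ 2) τ :=
        ContinuousAt.div (by fun_prop) (by fun_prop) (pow_ne_zero 2 hτ)
      rw [hh, continuousAt_update_of_ne hτ]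
      exact h1
  have hpos : ∀ τ, 0 < h τ := by
    intro τ
    by_cases hτ : τ = 0
    · subst hτ
      rw [h0]
      linarith
    · rw [hne τ hτ]
      have h1 := hlt τ hτ
      have h2 : 0 < τ ^ 2 := by positivity
      exact div_pos (by linarith) h2
  have hmul : ∀ τ, m - g τ = τ ^ 2 * h τ := by
    intro τ
    by_cases hτ : τ = 0
    · subst hτ
      rw [g0]
      ring
    · rw [hne τ hτ]
      field_simp
  obtain ⟨τ₀, -, hmin⟩ := isCompact_Icc.exists_isMinOn (Set.nonempty_Icc.2 (by linarith : -R ≤ R))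
    hcont.continuousOn
  set b := h τ₀ with hb
  have hb0 : 0 < b := hpos _
  have hlow : ∀ τ ∈ Set.Icc (-R) R, b ≤ h τ := fun τ hτ => hmin hτ
  obtain ⟨K, hK⟩ := isCompact_Icc.exists_bound_of_continuousOn hC
  have hK0 : 0 ≤ K := le_trans (norm_nonneg _) (hK 0 ⟨by linarith, hR.le⟩)
  obtain ⟨L, hL⟩ := (HasCompactSupport.intro isCompact_Icc hs).exists_bound_of_continuous hχ
  have hL0 : 0 ≤ L := le_trans (norm_nonneg _) (hL 0)
  -- rescaled integrand
  set Φ : ℝ → ℝ → ℝ := fun e u =>
    Set.indicator ((fun u => e * u) ⁻¹' Set.Ioc (-R) R)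
      (fun u => χ ((m - g (e * u)) / e ^ 2) * C (e * u)) u with hΦ
  have hint : ∀ e : ℝ, 0 < e →
      e⁻¹ * ∫ τ in (-R)..R, χ ((m - g τ) / e ^ 2) * C τ = ∫ u, Φ e u := by
    intro e he
    rw [intervalIntegral.integral_of_le (by linarith), ← MeasureTheory.integral_indicator
      measurableSet_Ioc]
    have h1 := MeasureTheory.Measure.integral_comp_mul_left (fun τ => Set.indicator (Set.Ioc (-R) R)
      (fun τ => χ ((m - g τ) / e ^ 2) * C τ) τ) e
    rw [abs_of_pos (inv_pos.2 he), smul_eq_mul] at h1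
    rw [← h1]
    rfl
  have hlim : Filter.Tendsto (fun e => ∫ u, Φ e u) (𝓝[>] 0)
      (𝓝 (∫ u : ℝ, χ (κ * u ^ 2 / 2) * C 0)) := by
    refine MeasureTheory.tendsto_integral_filter_of_dominated_convergence
      (Set.indicator (Set.Icc (-(2 / b + 1)) (2 / b + 1)) fun _ => L * K) ?_ ?_ ?_ ?_
    · filter_upwards [self_mem_nhdsWithin] with e he
      have hms : MeasurableSet ((fun u : ℝ => e * u) ⁻¹' Set.Ioc (-R) R) :=
        measurableSet_Ioc.preimage (by fun_prop)
      rw [hΦ]
      refine (aestronglyMeasurable_indicator_iff hms).2 ?_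
      refine ContinuousOn.aestronglyMeasurable ?_ hms
      refine ContinuousOn.mul (by fun_prop) ?_
      exact hC.comp (by fun_prop) fun u hu => ⟨hu.1.le, hu.2⟩
    · filter_upwards [self_mem_nhdsWithin] with e he
      have he' : 0 < e := he
      refine Filter.Eventually.of_forall fun u => ?_
      by_cases hu : e * u ∈ Set.Ioc (-R) R
      · have h1 : Φ e u = χ ((m - g (e * u)) / e ^ 2) * C (e * u) :=
          Set.indicator_of_mem (s := (fun u => e * u) ⁻¹' Set.Ioc (-R) R) hu _
        have hu' : e * u ∈ Set.Icc (-R) R := ⟨hu.1.le, hu.2⟩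
        have h2 : (m - g (e * u)) / e ^ 2 = u ^ 2 * h (e * u) := by
          rw [hmul]
          field_simp
        by_cases hM : u ∈ Set.Icc (-(2 / b + 1)) (2 / b + 1)
        · rw [Set.indicator_of_mem hM, h1, norm_mul]
          exact mul_le_mul (hL _) (hK _ hu') (norm_nonneg _) hL0
        · rw [Set.indicator_of_notMem hM, h1, h2]
          have h3 : χ (u ^ 2 * h (e * u)) = 0 := by
            refine hs _ fun hm => hM ?_
            have h4 : u ^ 2 * b ≤ 2 :=
              le_trans (mul_le_mul_of_nonneg_left (hlow _ hu') (sq_nonneg u)) hm.2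
            have h5 : u ^ 2 ≤ 2 / b := by
              rw [le_div_iff₀ hb0]
              exact h4
            have h6 : 0 < 2 / b := by positivity
            have h7 : |u| ≤ 2 / b + 1 := abs_le_of_sq_le_sq (by nlinarith) (by linarith)
            exact ⟨(abs_le.1 h7).1, (abs_le.1 h7).2⟩
          rw [h3]
          simp
      · have h1 : Φ e u = 0 :=
          Set.indicator_of_notMem (s := (fun u => e * u) ⁻¹' Set.Ioc (-R) R) hu _
        rw [h1, norm_zero]
        exact Set.indicator_nonneg (fun _ _ => mul_nonneg hL0 hK0) u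
    · exact (MeasureTheory.integrable_indicator_iff measurableSet_Icc).2
        continuous_const.integrableOn_Icc
    · refine Filter.Eventually.of_forall fun u => ?_
      have hc : Filter.Tendsto (fun e : ℝ => e * u) (𝓝[>] 0) (𝓝 0) := by
        have h1 : ContinuousAt (fun e : ℝ => e * u) 0 := by fun_prop
        have h2 := h1.tendsto
        rw [zero_mul] at h2
        exact h2.mono_left nhdsWithin_le_nhds
      have hin : ∀ᶠ e in 𝓝[>] (0 : ℝ), e * u ∈ Set.Ioc (-R) R :=
        hc (Ioc_mem_nhds (by linarith) hR)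
      have hC0 : ContinuousAt C 0 := hC.continuousAt (Icc_mem_nhds (by linarith) hR)
      have l1 : Filter.Tendsto (fun e : ℝ => χ (u ^ 2 * h (e * u)) * C (e * u)) (𝓝[>] 0)
          (𝓝 (χ (κ * u ^ 2 / 2) * C 0)) := by
        refine Filter.Tendsto.mul ?_ (hC0.tendsto.comp hc)
        refine (hχ.tendsto _).comp ?_
        have h3 : Filter.Tendsto (fun e : ℝ => u ^ 2 * h (e * u)) (𝓝[>] 0) (𝓝 (u ^ 2 * h 0)) :=
          ((hcont.tendsto 0).comp hc).const_mul _
        rw [h0] at h3
        have h4 : u ^ 2 * (κ / 2) = κ * u ^ 2 / 2 := by ring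
        rw [h4] at h3
        exact h3
      refine l1.congr' ?_
      filter_upwards [hin, self_mem_nhdsWithin] with e he he0
      have he' : 0 < e := he0
      have h1 : Φ e u = χ ((m - g (e * u)) / e ^ 2) * C (e * u) :=
        Set.indicator_of_mem (s := (fun u => e * u) ⁻¹' Set.Ioc (-R) R) he _
      have h2 : (m - g (e * u)) / e ^ 2 = u ^ 2 * h (e * u) := by
        rw [hmul]
        field_simp
      rw [h1, h2]
  rw [MeasureTheory.integral_mul_const, mul_comm] at hlim
  refine hlim.congr' ?_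
  filter_upwards [self_mem_nhdsWithin] with e he
  exact (hint e he).symm

end Pool.Agent.Work.MP_659252_gt.QR
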