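import Pool.Agent.Work.MP_659252_gt.QR.Bas
import Pool.Agent.Work.MP_659252_gt.QR.J.Scale
import Pool.Agent.Work.MP_659252_gt.QR.J.Chi

/-!
# Extraction of the leading coefficient.  Size: S-M.

PROOF.  Take `χ` from `exists_chi`, and for small `s > 0` `b y = χ ((m - y)/s²)`: `b` is smooth, `0` unless `y ∈ [m - 2 s², m - s²]`, so `Bump (m - e) (m + e) b` for `2 s² < e`.
`iteratedDeriv n b y = (-1)^n s^{-2n} iteratedDeriv n χ ((m - y)/s²)` (affine substitution: `iteratedDeriv_comp_const_sub`, `iteratedDeriv_comp_mul_left` or by induction).  Multiply the hypothesis by `s^8 s⁻¹`: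
`s⁻¹ ∫ χ^{(4)}((m - g)/s²) C₄ + ∑_{n<4} (-1)^n s^{8-2n} (s⁻¹ ∫ χ^{(n)}((m - g)/s²) C' n) = 0`.  By `scale` (with the continuous functions `χ^{(n)}`, zero outside of `[1, 2]`) the first term tends to
`C₄ 0 * ∫ χ^{(4)}(κ u²/2)`, the others to `0` (`8 - 2n ≥ 2`).  So `C₄ 0 * ∫ χ^{(4)}(κ u²/2) = 0`, and the integral is not `0`.
-/

namespace Pool.Agent.Work.MP_659252_gt.QR

open scoped ContDiff Topology
open Pool.Agent.Work.MP_659252_gt.Z (V Ten val Tan InT IsZoll IsMetric IsGeodesic)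

variable {d : ℕ}

private theorem sta_zero {χ : ℝ → ℝ} (h : ∀ s, s ∉ Set.Icc (1 : ℝ) 2 → χ s = 0) (n : ℕ) :
    ∀ s, s ∉ Set.Icc (1 : ℝ) 2 → iteratedDeriv n χ s = 0 := by
  induction n with
  | zero => rw [iteratedDeriv_zero]; exact h
  | succ n ih =>
    intro s hs
    rw [iteratedDeriv_succ]
    have h1 : iteratedDeriv n χ =ᶠ[𝓝 s] fun _ => 0 := by
      filter_upwards [isClosed_Icc.isOpen_compl.mem_nhds hs] with t ht
      exact ih t ht
    rw [h1.deriv_eq]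
    simp

private theorem sta_iter {χ : ℝ → ℝ} (hχ : ContDiff ℝ ∞ χ) (m a : ℝ) (n : ℕ) :
    iteratedDeriv n (fun y => χ ((m - y) / a)) = fun y => (-a⁻¹) ^ n * iteratedDeriv n χ ((m - y) / a) := by
  induction n with
  | zero =>
    funext y
    simp
  | succ n ih =>
    rw [iteratedDeriv_succ, ih]
    funext y
    have h0 : HasDerivAt (fun y : ℝ => (m - y) / a) (-a⁻¹) y := by
      have h1 := ((hasDerivAt_id y).const_sub m).div_const a
      refine h1.congr_deriv ?_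
      rw [neg_div, one_div]
    have hd : Differentiable ℝ (iteratedDeriv n χ) :=
      hχ.differentiable_iteratedDeriv n (WithTop.coe_lt_coe.2 (ENat.natCast_lt_top n))
    have h2 : HasDerivAt (fun y : ℝ => iteratedDeriv n χ ((m - y) / a))
        (deriv (iteratedDeriv n χ) ((m - y) / a) * (-a⁻¹)) y :=
      HasDerivAt.comp y (hd _).hasDerivAt h0
    rw [(h2.const_mul ((-a⁻¹) ^ n)).deriv, iteratedDeriv_succ, pow_succ]
    ring

private theorem sta_pow {n : ℕ} (hn : n < 4) :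
    Filter.Tendsto (fun s : ℝ => s ^ 8 * (-(s ^ 2)⁻¹) ^ n) (𝓝[>] 0) (𝓝 0) := by
  have h1 : Filter.Tendsto (fun s : ℝ => (-1) ^ n * s ^ (8 - 2 * n)) (𝓝[>] 0) (𝓝 0) := by
    have hc : ContinuousAt (fun s : ℝ => (-1) ^ n * s ^ (8 - 2 * n)) 0 := by fun_prop
    have h2 := hc.tendsto
    rw [zero_pow (by omega), mul_zero] at h2
    exact h2.mono_left nhdsWithin_le_nhds
  refine h1.congr' ?_
  filter_upwards [self_mem_nhdsWithin] with s hs
  have hs0 : s ≠ 0 := (Set.mem_Ioi.1 hs).ne'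
  have h3 : s ^ 8 = s ^ (8 - 2 * n) * (s ^ 2) ^ n := by
    rw [← pow_mul, ← pow_add]
    congr 1
    omega
  have h4 : (-(s ^ 2)⁻¹) ^ n = (-1) ^ n * ((s ^ 2) ^ n)⁻¹ := by
    rw [neg_pow ((s ^ 2)⁻¹) n, inv_pow]
  have h5 : (s ^ 2) ^ n ≠ 0 := pow_ne_zero _ (pow_ne_zero _ hs0)
  rw [h3, h4]
  field_simp

theorem starA (g : ℝ → ℝ) (R m κ e : ℝ) (hR : 0 < R) (hκ : 0 < κ) (he : 0 < e) (hg : ContDiff ℝ ∞ g) (g0 : g 0 = m)
    (g1 : deriv g 0 = 0) (g2 : iteratedDeriv 2 g 0 = -κ) (hlt : ∀ τ, τ ≠ 0 → g τ < m) (C₄ : ℝ → ℝ)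
    (C' : ℕ → ℝ → ℝ) (hC₄ : ContinuousOn C₄ (Set.Icc (-R) R)) (hC' : ∀ n, ContinuousOn (C' n) (Set.Icc (-R) R))
    (H : ∀ b, Bump (m - e) (m + e) b → (∫ τ in (-R)..R, iteratedDeriv 4 b (g τ) * C₄ τ) +
      ∑ n ∈ Finset.range 4, ∫ τ in (-R)..R, iteratedDeriv n b (g τ) * C' n τ = 0) : C₄ 0 = 0 := by
  obtain ⟨χ, hχ, hz, -, hint⟩ := exists_chi
  have hcont : ∀ n : ℕ, Continuous (iteratedDeriv n χ) := fun n =>
    hχ.continuous_iteratedDeriv n (WithTop.coe_lt_coe.2 (ENat.natCast_lt_top n)).le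
  have hT : ∀ (n : ℕ) (C : ℝ → ℝ), ContinuousOn C (Set.Icc (-R) R) →
      Filter.Tendsto (fun s : ℝ => s⁻¹ * ∫ τ in (-R)..R, iteratedDeriv n χ ((m - g τ) / s ^ 2) * C τ)
        (𝓝[>] 0) (𝓝 (C 0 * ∫ u : ℝ, iteratedDeriv n χ (κ * u ^ 2 / 2))) := fun n C hC =>
    scale g C (iteratedDeriv n χ) R m κ hR hκ hg g0 g1 g2 hlt hC (hcont n) (sta_zero hz n)
  have hF : Filter.Tendsto (fun s : ℝ =>
      (s⁻¹ * ∫ τ in (-R)..R, iteratedDeriv 4 χ ((m - g τ) / s ^ 2) * C₄ τ) +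
        ∑ n ∈ Finset.range 4, s ^ 8 * (-(s ^ 2)⁻¹) ^ n *
          (s⁻¹ * ∫ τ in (-R)..R, iteratedDeriv n χ ((m - g τ) / s ^ 2) * C' n τ)) (𝓝[>] 0)
      (𝓝 ((C₄ 0 * ∫ u : ℝ, iteratedDeriv 4 χ (κ * u ^ 2 / 2)) + ∑ n ∈ Finset.range 4, 0 *
        (C' n 0 * ∫ u : ℝ, iteratedDeriv n χ (κ * u ^ 2 / 2)))) :=
    (hT 4 C₄ hC₄).add (tendsto_finsetSum _ fun n hn =>
      (sta_pow (Finset.mem_range.1 hn)).mul (hT n (C' n) (hC' n)))
  have hF0 : ∀ᶠ s : ℝ in 𝓝[>] 0,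
      (s⁻¹ * ∫ τ in (-R)..R, iteratedDeriv 4 χ ((m - g τ) / s ^ 2) * C₄ τ) +
        ∑ n ∈ Finset.range 4, s ^ 8 * (-(s ^ 2)⁻¹) ^ n *
          (s⁻¹ * ∫ τ in (-R)..R, iteratedDeriv n χ ((m - g τ) / s ^ 2) * C' n τ) = 0 := by
    have hsm : ∀ᶠ s : ℝ in 𝓝[>] 0, 2 * s ^ 2 < e := by
      have hc : ContinuousAt (fun s : ℝ => 2 * s ^ 2) 0 := by fun_prop
      have h1 : ∀ᶠ s : ℝ in 𝓝 0, 2 * s ^ 2 < e :=
        hc.eventually_lt continuousAt_const (by simpa using he)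
      exact h1.filter_mono nhdsWithin_le_nhds
    filter_upwards [hsm, self_mem_nhdsWithin] with s hs hs0
    have hs1 : 0 < s := hs0
    have hs2 : 0 < s ^ 2 := by positivity
    have hb : Bump (m - e) (m + e) (fun y => χ ((m - y) / s ^ 2)) := by
      refine ⟨hχ.comp ((contDiff_const.sub contDiff_id).div_const _), m - 2 * s ^ 2, m - s ^ 2,
        by linarith, by linarith, fun y hy => hz _ fun hm => hy ?_⟩
      obtain ⟨h1, h2⟩ := hm
      rw [le_div_iff₀ hs2] at h1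
      rw [div_le_iff₀ hs2] at h2
      exact ⟨by linarith, by linarith⟩
    have h1 := H _ hb
    have h2 : ∀ (n : ℕ) (C : ℝ → ℝ), (∫ τ in (-R)..R,
        iteratedDeriv n (fun y => χ ((m - y) / s ^ 2)) (g τ) * C τ) =
        (-(s ^ 2)⁻¹) ^ n * ∫ τ in (-R)..R, iteratedDeriv n χ ((m - g τ) / s ^ 2) * C τ := by
      intro n C
      rw [sta_iter hχ m (s ^ 2) n, ← intervalIntegral.integral_const_mul]
      exact intervalIntegral.integral_congr fun τ _ => mul_assoc _ _ _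
    simp only [h2] at h1
    have h3 : s ^ 8 * (-(s ^ 2)⁻¹) ^ 4 = 1 := by
      field_simp
    have h4 := congrArg (fun z => s ^ 8 * s⁻¹ * z) h1
    simp only [mul_zero, _root_.mul_add, Finset.mul_sum] at h4
    rw [← h4]
    congr 1
    · calc s⁻¹ * ∫ τ in (-R)..R, iteratedDeriv 4 χ ((m - g τ) / s ^ 2) * C₄ τ =
          (s ^ 8 * (-(s ^ 2)⁻¹) ^ 4) * (s⁻¹ *
            ∫ τ in (-R)..R, iteratedDeriv 4 χ ((m - g τ) / s ^ 2) * C₄ τ) := by
            rw [h3, one_mul]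
        _ = _ := by ring
    · exact Finset.sum_congr rfl fun n _ => by ring
  have hlim := tendsto_nhds_unique hF (tendsto_const_nhds.congr' (by
    filter_upwards [hF0] with s hs
    exact hs.symm))
  simp only [zero_mul, Finset.sum_const_zero, add_zero] at hlim
  exact (mul_eq_zero.1 hlim).resolve_right (hint κ hκ)

end Pool.Agent.Work.MP_659252_gt.QR
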