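import Pool.Agent.Work.MP_659252_gt.QR.J.RepA

/-!
# The symbol at `τ = 0`.  Size: S-M.

PROOF.  `n = gr f P`, `A = (n ⬝ n)⁻¹ n`, `B = u`: `fderiv f P A = n ⬝ A = 1`, `fderiv f P B = n ⬝ u = 0` (`fderiv f P v = ∑ v_i fderiv f P (ee i) = gr f P ⬝ v`).  For `(P, V') ∈ U`, `E` smooth on
`U × (-R', R')`: `TT f A B E ((P, V'), 0) = fderiv (fun y => E (y, 0)) (P, V') (0, u)` (the terms with the factor `p.2 = 0` vanish), which is the derivative at `x = 0` of `x ↦ E ((P, V' + x u), 0)`.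
So, with `φ_E x = E ((P, v + x u), 0)`: `φ_{TT E} = (φ_E)'` for `x` near `0` (`(P, v + x u) ∈ U`).  Three times (`TT_smooth`); `iteratedDeriv 3` is the third derivative
(`iteratedDeriv_succ`, `Filter.EventuallyEq.deriv`).
-/

namespace Pool.Agent.Work.MP_659252_gt.QR

open scoped ContDiff Topology
open Pool.Agent.Work.MP_659252_gt.Z (V Ten val Tan InT IsZoll IsMetric IsGeodesic)

variable {d : ℕ}

private theorem fd_eq (f : V d → ℝ) (P v : V d) : fderiv ℝ f P v = gr f P ⬝ᵥ v := by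
  have h : v = ∑ i, v i • (Pi.single i (1 : ℝ) : V d) := by
    ext j
    simp [Finset.sum_apply, Pi.single_apply]
  conv_lhs => rw [h]
  rw [map_sum]
  simp only [map_smul, smul_eq_mul, dotProduct, gr]
  exact Finset.sum_congr rfl fun i _ => mul_comm _ _

private theorem TT0 (f : V d → ℝ) (P V' u : V d) (hn : gr f P ≠ 0) (hu : gr f P ⬝ᵥ u = 0)
    (E : (V d × V d) × ℝ → ℝ) :
    TT f ((gr f P ⬝ᵥ gr f P)⁻¹ • gr f P) u E ((P, V'), 0) = fderiv ℝ (fun y => E (y, 0)) (P, V') (0, u) := by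
  have h1 : gr f P ⬝ᵥ gr f P ≠ 0 := by
    intro h
    exact hn (dotProduct_self_eq_zero.1 h)
  simp only [TT, zero_smul, add_zero, zero_mul, sub_zero]
  rw [fd_eq f P, fd_eq f P, hu, dotProduct_smul, smul_eq_mul, inv_mul_cancel₀ h1]
  ring

private theorem dphi (f : V d → ℝ) (U : Set (V d × V d)) (hU : IsOpen U) (R' : ℝ) (hR' : 0 < R')
    (P v u : V d) (hP : (P, v) ∈ U) (hn : gr f P ≠ 0)
    (hu : gr f P ⬝ᵥ u = 0) (E : (V d × V d) × ℝ → ℝ) (hE : ContDiffOn ℝ ∞ E (U ×ˢ Set.Ioo (-R') R')) :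
    deriv (fun x : ℝ => E ((P, v + x • u), 0)) =ᶠ[nhds 0]
      fun x : ℝ => TT f ((gr f P ⬝ᵥ gr f P)⁻¹ • gr f P) u E ((P, v + x • u), 0) := by
  have hc : Continuous (fun x : ℝ => ((P, v + x • u) : V d × V d)) := by fun_prop
  have hn0 : ∀ᶠ x : ℝ in nhds 0, ((P, v + x • u) : V d × V d) ∈ U := by
    apply hc.continuousAt.eventually_mem
    simpa using hU.mem_nhds hP
  filter_upwards [hn0] with x hx
  rw [TT0 f P _ u hn hu]
  have hd : DifferentiableAt ℝ (fun y : V d × V d => E (y, 0)) (P, v + x • u) := by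
    have h1 : ContDiffAt ℝ ∞ E ((P, v + x • u), 0) :=
      hE.contDiffAt ((hU.prod isOpen_Ioo).mem_nhds ⟨hx, by simp [hR']⟩)
    have h2 : DifferentiableAt ℝ E ((P, v + x • u), 0) := h1.differentiableAt (by simp)
    have h3 : DifferentiableAt ℝ (fun y : V d × V d => (y, (0 : ℝ))) (P, v + x • u) := by fun_prop
    exact h2.comp (P, v + x • u) h3
  have hg : HasDerivAt (fun x : ℝ => ((P, v + x • u) : V d × V d)) (0, u) x := by
    have h4 : HasDerivAt (fun x : ℝ => v + x • u) u x := by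
      simpa using ((hasDerivAt_id x).smul_const u).const_add v
    exact (hasDerivAt_const x P).prodMk h4
  have h5 := hd.hasFDerivAt.comp_hasDerivAt x hg
  exact h5.deriv

theorem TTT (f : V d → ℝ) (fs : ContDiffOn ℝ ∞ f {0}ᶜ) (U : Set (V d × V d)) (hU : IsOpen U) (R' : ℝ) (hR' : 0 < R')
    (hne : ∀ z ∈ U, ∀ τ ∈ Set.Ioo (-R') R', z.1 + τ • z.2 ≠ 0) (P v u : V d) (hP : (P, v) ∈ U) (hn : gr f P ≠ 0)
    (hu : gr f P ⬝ᵥ u = 0) (C : (V d × V d) × ℝ → ℝ) (hC : ContDiffOn ℝ ∞ C (U ×ˢ Set.Ioo (-R') R')) :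
    TT f ((gr f P ⬝ᵥ gr f P)⁻¹ • gr f P) u (TT f ((gr f P ⬝ᵥ gr f P)⁻¹ • gr f P) u
      (TT f ((gr f P ⬝ᵥ gr f P)⁻¹ • gr f P) u C)) ((P, v), 0) =
      iteratedDeriv 3 (fun x : ℝ => C ((P, v + x • u), 0)) 0 := by
  have hA := fun E hE => dphi f U hU R' hR' P v u hP hn hu E hE
  have hS := fun E hE => TT_smooth f fs U hU R' hne ((gr f P ⬝ᵥ gr f P)⁻¹ • gr f P) u E hE
  have e1 := (hA C hC)
  have e2 := (hA _ (hS C hC))
  have e3 := (hA _ (hS _ (hS C hC)))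
  rw [iteratedDeriv_succ', e1.iteratedDeriv_eq 2, iteratedDeriv_succ', e2.iteratedDeriv_eq 1,
    iteratedDeriv_one, e3.eq_of_nhds]
  simp

end Pool.Agent.Work.MP_659252_gt.QR
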