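import Pool.Agent.Work.MP_659252_gt.QR.D.BrD
import Pool.Agent.Work.MP_659252_gt.QR.J.RepC
import Pool.Agent.Work.MP_659252_gt.QR.J.TTT
import Pool.Agent.Work.MP_659252_gt.QR.J.StarA
import Pool.Agent.Work.MP_659252_gt.QR.J.Nbh

/-!
# THEOREM J: the third derivative of `Kq * (n ⬝ ∂) Ps` vanishes.  Size: M.

PROOF.  Take `U`, `R` from `nbh` (`R' = R + 1`), `e` from `brD`, `C'` from `rep` (with `ψ = Ps f (Kq f w k) b`, `C = Cq f w k`, `A = (n ⬝ n)⁻¹ n`, `B = u`, `n = gr f P`).  For `b₂` a `Bump (f P - e) (f P + e)`: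
`br (Fz b₂) ψ = Phi K` near `(P, v)` (`brD`), `Fz b₂ = Ii f R b₂ 0 Cq` on `U`, so `br (Ii ..) ψ = Phi K` near `(P, v)`; by `JJ_congr` (three times) and `JJJ_Phi` (`(P, v) ∈ Dom {0}ᶜ`: `P`, `v` are
linearly independent) `JJ³ (br (Ii ..) ψ) (P, v) = 0`.  `rep` at `z = (P, v)` turns this into the hypothesis `H` of `starA` with `g τ = f (P + τ v)` (smooth on `ℝ`; `g' 0 = gr f P ⬝ v = 0`;
`iteratedDeriv 2 g 0 = D2 f P v < 0` by `curv`; `g τ < f P` for `τ ≠ 0` by `uniq`), `C₄ τ = TT³ (..) ((P, v), τ)`, `C' n τ = C' n ((P, v), τ)` (continuous).  So `C₄ 0 = 0`, and by `TTT` it is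
`iteratedDeriv 3 (fun x => Cq ((P, v + x u), 0) * qq f ψ ((P, v + x u), 0)) 0`; `Cq (..) = (1/2) Kq f w k P (v + x u)` and
`qq f ψ ((P, V'), 0) = ∑ i, fderiv f P (ee i) * fderiv ψ (P, V') (0, ee i) = fderiv ψ (P, V') (0, gr f P)` (linearity).
-/

namespace Pool.Agent.Work.MP_659252_gt.QR

open scoped ContDiff Topology
open Pool.Agent.Work.MP_659252_gt.Z (V Ten val Tan InT IsZoll IsMetric IsGeodesic)

variable {d : ℕ}

private theorem dom_mem {P v : V d} (hP : 0 < P 0) (hv0 : v 0 = 0) (hv : v ≠ 0) :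
    (P, v) ∈ Dom ({0}ᶜ : Set (V d)) := by
  intro s h0
  have h1 : gc P v s = 0 := h0
  have h2 : Real.cos s = 0 := by
    have h3 := congrFun h1 0
    simp only [gc, Pi.add_apply, Pi.smul_apply, smul_eq_mul, hv0, mul_zero, add_zero,
      Pi.zero_apply] at h3
    exact (mul_eq_zero.1 h3).resolve_right hP.ne'
  have h4 : Real.sin s = 0 := by
    rw [gc, h2, zero_smul, zero_add] at h1
    exact (smul_eq_zero.1 h1).resolve_right hv
  have h5 := Real.sin_sq_add_cos_sq s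
  rw [h2, h4] at h5
  norm_num at h5

private theorem br_congr {φ φ' ψ : V d × V d → ℝ} {z : V d × V d} (h : φ =ᶠ[𝓝 z] φ') :
    br φ ψ z = br φ' ψ z := by
  simp only [br, h.fderiv_eq]

private theorem qq_zero (f : V d → ℝ) (ψ : V d × V d → ℝ) (P V' : V d) :
    qq f ψ ((P, V'), 0) = fderiv ℝ ψ (P, V') (0, gr f P) := by
  have h1 : ((0 : V d), gr f P) = ∑ i, gr f P i • ((0 : V d), (ee i : V d)) := by
    have h2 : gr f P = ∑ i, gr f P i • (ee i : V d) := by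
      funext j
      simp [ee, Finset.sum_apply, Pi.single_apply]
    refine Prod.ext ?_ ?_
    · simp [Prod.fst_sum]
    · rw [Prod.snd_sum]
      simp only [Prod.smul_snd]
      exact h2
  rw [h1, map_sum]
  simp only [qq, zero_smul, add_zero, zero_mul, sub_zero, map_smul, smul_eq_mul]
  rfl

private theorem Cq_zero (f w : V d → ℝ) (k : Ten d) (P V' : V d) :
    Cq f w k ((P, V'), 0) = (1 / 2) * Kq f w k P V' := by
  simp only [Cq, zero_smul, add_zero]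

theorem star (hd : 1 ≤ d) (f w : V d → ℝ) (k : Ten d) (lo hi : ℝ) (P : V d) (L : Loc f w k lo hi P) (b : ℝ → ℝ)
    (hb : Bump lo (f P) b) (v u : V d) (hv0 : v 0 = 0) (hv : v ≠ 0) (hvn : gr f P ⬝ᵥ v = 0) (hu0 : u 0 = 0)
    (hun : gr f P ⬝ᵥ u = 0) :
    iteratedDeriv 3 (fun x : ℝ => Kq f w k P (v + x • u) *
      fderiv ℝ (Ps f (Kq f w k) b) (P, v + x • u) (0, gr f P)) 0 = 0 := by
  obtain ⟨U, hU, hPU, R, hR, hne, hPs, hCq, hFz⟩ := nbh f w k lo hi P L b hb v hv0 hv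
  obtain ⟨e, he, hlo, hhi, hK⟩ := brD hd f w k lo hi P L b hb v hv0 hv hvn
  obtain ⟨ψ, hψ⟩ : ∃ ψ, ψ = Ps f (Kq f w k) b := ⟨_, rfl⟩
  obtain ⟨C, hC⟩ : ∃ C, C = Cq f w k := ⟨_, rfl⟩
  obtain ⟨A, hA⟩ : ∃ A, A = (gr f P ⬝ᵥ gr f P)⁻¹ • gr f P := ⟨_, rfl⟩
  have hR' : R < R + 1 := by linarith
  have hR0 : 0 < R + 1 := by linarith
  have hne' : ∀ z ∈ U, ∀ τ ∈ Set.Ioo (-(R + 1)) (R + 1), z.1 + τ • z.2 ≠ 0 :=
    fun z hz τ _ => hne z hz τ
  have hCs : ContDiffOn ℝ ∞ C (U ×ˢ Set.Ioo (-(R + 1)) (R + 1)) := by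
    rw [hC]
    exact hCq.mono (Set.prod_mono_right (Set.subset_univ _))
  rw [← hψ] at hPs
  obtain ⟨C', hC's, hrep⟩ := rep f L.fs U hU R (R + 1) hR hR' hne' ψ hPs C hCs A u
  have hE : ContDiffOn ℝ ∞ (fun p => C p * qq f ψ p) (U ×ˢ Set.Ioo (-(R + 1)) (R + 1)) :=
    hCs.mul (qq_smooth f L.fs U hU (R + 1) hne' ψ hPs)
  have hT := TT_smooth f L.fs U hU (R + 1) hne' A u _
    (TT_smooth f L.fs U hU (R + 1) hne' A u _ (TT_smooth f L.fs U hU (R + 1) hne' A u _ hE))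
  have hin : ∀ (D : (V d × V d) × ℝ → ℝ), ContDiffOn ℝ ∞ D (U ×ˢ Set.Ioo (-(R + 1)) (R + 1)) →
      ContinuousOn (fun τ => D ((P, v), τ)) (Set.Icc (-R) R) := by
    intro D hD
    refine hD.continuousOn.comp (Continuous.continuousOn (by fun_prop)) ?_
    intro τ hτ
    exact ⟨hPU, ⟨by linarith [hτ.1], by linarith [hτ.2]⟩⟩
  -- the curve
  have hg : ContDiff ℝ ∞ (fun τ : ℝ => f (P + τ • v)) :=
    L.fs.comp_contDiff (f := fun τ : ℝ => P + τ • v) (by fun_prop) (fun τ => hne (P, v) hPU τ)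
  have hP0 : P ≠ 0 := by
    have := hne (P, v) hPU 0
    simpa using this
  have hg1 : deriv (fun τ : ℝ => f (P + τ • v)) 0 = 0 := by
    have h1 : HasFDerivAt f (fderiv ℝ f (P + (0 : ℝ) • v)) (P + (0 : ℝ) • v) := by
      have h2 : P + (0 : ℝ) • v ≠ 0 := hne (P, v) hPU 0
      exact ((L.fs.contDiffAt (isOpen_compl_singleton.mem_nhds h2)).differentiableAt
        (by simp)).hasFDerivAt
    have h2 : HasDerivAt (fun τ : ℝ => P + τ • v) v 0 := by
      have := ((hasDerivAt_id (0 : ℝ)).smul_const v).const_add P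
      rw [one_smul] at this
      exact this
    have h3 := h1.comp_hasDerivAt (0 : ℝ) h2
    have h4 : deriv (fun τ : ℝ => f (P + τ • v)) 0 = fderiv ℝ f (P + (0 : ℝ) • v) v := h3.deriv
    rw [h4, zero_smul, add_zero, fderiv_eq_gr, hvn]
  have hcurv := L.curv v hvn hv0 hv
  have key := starA (fun τ : ℝ => f (P + τ • v)) R (f P) (-D2 f P v) e hR (by linarith) he hg
    (by simp) hg1 (by rw [neg_neg]; rfl) (fun τ hτ => L.uniq v hvn hv0 hv τ hτ)
    (fun τ => TT f A u (TT f A u (TT f A u (fun p => C p * qq f ψ p))) ((P, v), τ))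
    (fun n τ => C' n ((P, v), τ)) (hin _ hT) (fun n => hin _ (hC's n)) ?_
  · have h1 := TTT f L.fs U hU (R + 1) hR0 hne' P v u hPU L.reg hun _ hE
    rw [← hA] at h1
    have h2 : (fun x : ℝ => C ((P, v + x • u), 0) * qq f ψ ((P, v + x • u), 0)) =
        fun x : ℝ => (1 / 2 : ℝ) * (Kq f w k P (v + x • u) *
          fderiv ℝ ψ (P, v + x • u) (0, gr f P)) := by
      funext x
      rw [hC, Cq_zero, qq_zero, mul_assoc]
    rw [h2, iteratedDeriv_const_mul_field] at h1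
    have h3 : (0 : ℝ) = (1 / 2 : ℝ) * iteratedDeriv 3 (fun x : ℝ => Kq f w k P (v + x • u) *
          fderiv ℝ ψ (P, v + x • u) (0, gr f P)) 0 := by
      rw [← h1]
      exact key.symm
    rw [hψ] at h3
    linarith
  · intro b₂ hb₂
    have hb₂' : Bump lo hi b₂ := by
      obtain ⟨h1, a, c, h2, h3, h4⟩ := hb₂
      exact ⟨h1, a, c, by linarith, by linarith, h4⟩
    obtain ⟨K, hKf, hKe⟩ := hK b₂ hb₂
    have h1 : br (Ii f R b₂ 0 C) ψ =ᶠ[𝓝 (P, v)] fun z => Phi K z.1 z.2 := by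
      filter_upwards [hKe, hU.mem_nhds hPU] with z hz hzU
      rw [← hz, hψ]
      apply br_congr
      filter_upwards [hU.mem_nhds hzU] with y hy
      rw [hFz b₂ hb₂' y hy, hC]
    have h2 := (JJ_congr A u _ _ _ (JJ_congr A u _ _ _ (JJ_congr A u _ _ _ h1))).eq_of_nhds
    rw [JJJ_Phi K hKf A u (P, v) (dom_mem L.P0 hv0 hv), hrep b₂ hb₂.1 (P, v) hPU] at h2
    exact h2

end Pool.Agent.Work.MP_659252_gt.QR
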